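import Mathlib

/-! MP_07117b_nt, arboreal Galois groups: the averaging lemma (Iso). -/

namespace Pool.Agent.Arb

open Finset

/-- In a group of exponent two, odd multiples are trivial. -/
theorem nsmul_odd {V : Type*} [AddCommGroup V] (hV : ∀ x : V, x + x = 0) {n : ℕ} (hn : Odd n)
    (x : V) : n • x = x := by
  obtain ⟨k, rfl⟩ := hn
  rw [add_nsmul, one_nsmul, mul_comm, mul_nsmul, two_nsmul, ← nsmul_add, hV, nsmul_zero, zero_add]

/-- The projection of a label vector to the block of `u` (zero sum part). -/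
def proj {M : Type*} [DecidableEq M] {V : Type*} [AddCommGroup V] (δ : M → ZMod 13 → V) (u : M) :
    M → ZMod 13 → V := fun u' i => if u' = u then δ u i + ∑ k, δ u k else 0

instance instFactPrime13 : Fact (Nat.Prime 13) := ⟨by norm_num⟩

theorem odd_card_addSubgroup {M : Type*} [Finite M] (H : AddSubgroup (M → ZMod 13)) :
    Odd (Nat.card H) := by
  have h1 : Nat.card H ∣ Nat.card (M → ZMod 13) := AddSubgroup.card_addSubgroup_dvd_card H
  have := Fintype.ofFinite M
  rw [Nat.card_fun, Nat.card_zmod] at h1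
  exact Odd.of_dvd_nat (Odd.pow (by decide)) h1

/-- Averaging over a group of rotation vectors which moves the block `u'`. -/
theorem avg {M : Type*} [Finite M] {V : Type*} [AddCommGroup V] (hV : ∀ x : V, x + x = 0)
    (H : AddSubgroup (M → ZMod 13)) [Fintype H] (u' : M) (h0 : ∃ γ ∈ H, γ u' ≠ 0)
    (F : ZMod 13 → V) (i : ZMod 13) :
    ∑ γ : H, F (i - γ.1 u') = ∑ k, F k := by
  have hodd : Odd (Fintype.card H) := by
    rw [← Nat.card_eq_fintype_card]
    exact odd_card_addSubgroup H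
  obtain ⟨γ0, hγ0, hne⟩ := h0
  set S : ZMod 13 → V := fun i => ∑ γ : H, F (i - γ.1 u') with hS
  have hinv : ∀ i, S (i - γ0 u') = S i := by
    intro i
    simp only [hS]
    rw [← Equiv.sum_comp (Equiv.addLeft (-(⟨γ0, hγ0⟩ : H)))]
    refine Finset.sum_congr rfl fun γ _ => ?_
    simp only [Equiv.coe_addLeft, AddSubgroup.coe_add, AddSubgroup.coe_neg, Pi.add_apply,
      Pi.neg_apply]
    congr 1
    ring
  have hinv2 : ∀ (n : ℕ) i, S (i - n • γ0 u') = S i := by
    intro n
    induction n with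
    | zero => intro i; simp
    | succ n ih =>
      intro i
      rw [succ_nsmul, ← sub_sub, hinv, ih]
  have hconst : ∀ i, S i = S 0 := by
    intro i
    have h2 : (0 : ZMod 13) = i - (i / γ0 u').val • γ0 u' := by
      rw [nsmul_eq_mul, ZMod.natCast_val, ZMod.cast_id, div_mul_cancel₀ _ hne, sub_self]
    rw [h2, hinv2]
  have h3 : ∑ i, S i = S i := by
    rw [hconst i, Finset.sum_congr rfl fun j _ => hconst j, Finset.sum_const, Finset.card_univ,
      ZMod.card]
    exact nsmul_odd hV (by decide) _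
  have h4 : ∑ i, S i = ∑ k, F k := by
    simp only [hS]
    rw [Finset.sum_comm]
    have h5 : ∀ γ : H, ∑ i, F (i - γ.1 u') = ∑ k, F k := fun γ =>
      Equiv.sum_comp (Equiv.subRight (γ.1 u')) F
    rw [Finset.sum_congr rfl fun γ _ => h5 γ, Finset.sum_const, Finset.card_univ]
    exact nsmul_odd hV hodd _
  rw [← h4, h3]

/-- (Iso): the isolation lemma. -/
theorem iso {M : Type*} [Finite M] [DecidableEq M] {V : Type*} [AddCommGroup V]
    (hV : ∀ x : V, x + x = 0) (Γ : AddSubgroup (M → ZMod 13))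
    (Δ : AddSubgroup (M → ZMod 13 → V))
    (hst : ∀ γ ∈ Γ, ∀ δ ∈ Δ, (fun u i => δ u (i - γ u)) ∈ Δ)
    (hA : ∀ u, ∃ γ ∈ Γ, γ u ≠ 0)
    (hB : ∀ u u', u ≠ u' → ∃ γ ∈ Γ, γ u = 0 ∧ γ u' ≠ 0)
    (δ : M → ZMod 13 → V) (hδ : δ ∈ Δ) (u : M) : proj δ u ∈ Δ := by
  classical
  have := Fintype.ofFinite M
  let N : AddSubgroup (M → ZMod 13) :=
    Γ ⊓ (Pi.evalAddMonoidHom (fun _ : M => ZMod 13) u).ker
  have hN : ∀ γ, γ ∈ N ↔ γ ∈ Γ ∧ γ u = 0 := by
    intro γ
    simp only [N, AddSubgroup.mem_inf, AddMonoidHom.mem_ker, Pi.evalAddMonoidHom_apply]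
  have : Fintype Γ := Fintype.ofFinite Γ
  have : Fintype N := Fintype.ofFinite N
  have key : proj δ u = (∑ γ : N, fun u' i => δ u' (i - γ.1 u')) +
      ∑ γ : Γ, fun u' i => δ u' (i - γ.1 u') := by
    funext u' i
    simp only [Pi.add_apply, Finset.sum_apply]
    rw [avg hV Γ u' (hA u') (δ u') i]
    unfold proj
    by_cases hu : u' = u
    · subst hu
      rw [if_pos rfl]
      congr 1
      have h6 : ∀ γ : N, δ u' (i - γ.1 u') = δ u' i := by
        intro γ
        rw [((hN γ.1).1 γ.2).2, sub_zero]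
      rw [Finset.sum_congr rfl fun γ _ => h6 γ, Finset.sum_const, Finset.card_univ]
      have h7 : Odd (Fintype.card N) := by
        rw [← Nat.card_eq_fintype_card]
        exact odd_card_addSubgroup N
      exact (nsmul_odd hV h7 _).symm
    · rw [if_neg hu]
      have h8 : ∃ γ ∈ N, γ u' ≠ 0 := by
        obtain ⟨γ, hγ, h9, h10⟩ := hB u u' (Ne.symm hu)
        exact ⟨γ, (hN γ).2 ⟨hγ, h9⟩, h10⟩
      rw [avg hV N u' h8 (δ u') i]
      exact (hV _).symm
  rw [key]
  refine Δ.add_mem (Δ.sum_mem fun γ _ => ?_) (Δ.sum_mem fun γ _ => ?_)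
  · exact hst γ.1 ((hN γ.1).1 γ.2).1 δ hδ
  · exact hst γ.1 γ.2 δ hδ

end Pool.Agent.Arb
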