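import Pool.Agent.Lib.MP_07117b_nt_h64.Defs
import Pool.Agent.Lib.MP_07117b_nt_h62.Iso

/-! MP_07117b_nt, arboreal Galois groups: STEP 1 of the group theory. -/

namespace Pool.Agent.Arb

open Finset

section General

variable {G A X Y : Type*} [Group G] [AddCommGroup A] [MulAction G X] [MulAction G Y]
    [AddAction A X] {p : X → Y}

theorem Fib.vadd_inj (hp : Fib G A X Y p) {c c' : A} {x : X} (h : c +ᵥ x = c' +ᵥ x) : c = c' := by
  have h1 : (-c' + c) +ᵥ x = x := by
    rw [add_vadd, h, neg_vadd_vadd]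
  have h2 := hp.free _ _ h1
  have h3 := congrArg (fun t => c' + t) h2
  simpa using h3

/-- `Gam G p` is an additive subgroup. -/
def GamS (G : Type*) [Group G] [MulAction G X] [MulAction G Y] (p : X → Y)
    (hp : Fib G A X Y p) : AddSubgroup (Y → A) where
  carrier := Gam G (A := A) p
  zero_mem' := ⟨1, fun x => by rw [one_smul, Pi.zero_apply, zero_vadd]⟩
  add_mem' := by
    rintro γ γ' ⟨g, hg⟩ ⟨g', hg'⟩
    refine ⟨g * g', fun x => ?_⟩
    rw [mul_smul, hg', hp.comm, hg, Pi.add_apply, add_comm, add_vadd]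
  neg_mem' := by
    rintro γ ⟨g, hg⟩
    refine ⟨g⁻¹, fun x => ?_⟩
    rw [inv_smul_eq_iff, Pi.neg_apply, hp.comm, hg, ← add_vadd, neg_add_cancel, zero_vadd]

theorem mem_GamS (hp : Fib G A X Y p) (γ : Y → A) :
    γ ∈ GamS G p hp ↔ γ ∈ Gam G (A := A) p := Iff.rfl

/-- conjugation -/
theorem gam_conj (hp : Fib G A X Y p) {γ : Y → A} (hγ : γ ∈ Gam G (A := A) p) (k : G) :
    (fun y => γ (k⁻¹ • y)) ∈ Gam G (A := A) p := by
  obtain ⟨g, hg⟩ := hγ
  refine ⟨k * g * k⁻¹, fun x => ?_⟩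
  rw [mul_smul, mul_smul, hg, hp.comm, smul_inv_smul, hp.equiv]

/-- An element fixing the base pointwise acts by a translation vector. -/
theorem gam_of_fix (hp : Fib G A X Y p) (h : G) (hfix : ∀ y : Y, h • y = y) :
    ∃ δ ∈ Gam G (A := A) p, ∀ x : X, h • x = δ (p x) +ᵥ x := by
  classical
  choose σ hσ using hp.surj
  have h1 : ∀ y : Y, ∃ c : A, h • σ y = c +ᵥ σ y := by
    intro y
    refine hp.trans _ _ ?_
    rw [hp.equiv, hfix]
  choose δ hδ using h1
  have h2 : ∀ x : X, h • x = δ (p x) +ᵥ x := by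
    intro x
    obtain ⟨c, hc⟩ := hp.trans (σ (p x)) x (hσ _)
    conv_lhs => rw [hc]
    rw [hp.comm, hδ, ← add_vadd, add_comm, add_vadd, ← hc]
  exact ⟨δ, ⟨h, h2⟩, h2⟩

end General

section Iso

variable {G L M M' : Type*} [Group G] [MulAction G L] [MulAction G M] [MulAction G M']
    [AddAction (ZMod 13) L] [AddAction V4 M'] [Finite M]

theorem v4_add_self (x : V4) : x + x = 0 := by
  revert x
  decide

/-- (Iso) for the label vectors. -/
theorem isoL (p : L → M) (q : M' → L) (hp : Fib G (ZMod 13) L M p) (hq : Fib G V4 M' L q)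
    (hA : PropA G p) (hB : PropB G p) (δ : L → V4) (hδ : δ ∈ Gam G (A := V4) q) (u : M)
    [DecidableEq M] :
    (fun y => if p y = u then δ y + ∑ k : ZMod 13, δ (k +ᵥ y) else 0) ∈ Gam G (A := V4) q := by
  classical
  choose σ hσ using hp.surj
  have h1 : ∀ y : L, ∃ i : ZMod 13, y = i +ᵥ σ (p y) := fun y => hp.trans _ _ (hσ _)
  choose idx hidx using h1
  have hidx' : ∀ (i : ZMod 13) (y : L), idx (i +ᵥ y) = i + idx y := by
    intro i y
    have h2 := hidx (i +ᵥ y)
    rw [hp.fib] at h2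
    have h3 : (i + idx y) +ᵥ σ (p y) = idx (i +ᵥ y) +ᵥ σ (p y) := by
      rw [← h2, add_vadd, ← hidx]
    exact (hp.vadd_inj h3).symm
  have hidxσ : ∀ (i : ZMod 13) (v : M), idx (i +ᵥ σ v) = i := by
    intro i v
    have h2 := hidx (i +ᵥ σ v)
    rw [hp.fib, hσ] at h2
    exact (hp.vadd_inj h2).symm
  let E : (M → ZMod 13 → V4) →+ (L → V4) :=
    { toFun := fun d y => d (p y) (idx y)
      map_zero' := rfl
      map_add' := fun _ _ => rfl }
  have key := iso (V := V4) v4_add_self (GamS G p hp) ((GamS G q hq).comap E) ?_ hA hB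
    (fun v i => δ (i +ᵥ σ v)) ?_ u
  · rw [AddSubgroup.mem_comap, mem_GamS] at key
    convert key using 1
    funext y
    change _ = proj (fun v i => δ (i +ᵥ σ v)) u (p y) (idx y)
    unfold proj
    by_cases hy : p y = u
    · rw [if_pos hy, if_pos hy, ← hy]
      change _ = δ (idx y +ᵥ σ (p y)) + ∑ k : ZMod 13, δ (k +ᵥ σ (p y))
      rw [← hidx]
      congr 1
      have h4 : ∀ k : ZMod 13, δ (k +ᵥ y) = δ ((k + idx y) +ᵥ σ (p y)) := by
        intro k
        rw [add_vadd, ← hidx]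
      rw [Finset.sum_congr rfl fun k _ => h4 k]
      exact Equiv.sum_comp (Equiv.addRight (idx y)) fun k => δ (k +ᵥ σ (p y))
    · rw [if_neg hy, if_neg hy]
  · rintro γ ⟨g, hg⟩ d hd
    rw [AddSubgroup.mem_comap, mem_GamS] at hd ⊢
    have h5 := gam_conj hq hd g
    convert h5 using 1
    funext y
    change d (p y) (idx y - γ (p y)) = d (p (g⁻¹ • y)) (idx (g⁻¹ • y))
    have h6 : g⁻¹ • y = (-γ (p y)) +ᵥ y := by
      rw [inv_smul_eq_iff, hp.comm, hg, ← add_vadd, neg_add_cancel, zero_vadd]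
    rw [h6, hp.fib, hidx', sub_eq_neg_add]
  · rw [AddSubgroup.mem_comap, mem_GamS]
    convert hδ using 1
    funext y
    change δ (idx y +ᵥ σ (p y)) = δ y
    rw [← hidx]

end Iso

section Step

variable {G L M M' : Type*} [Group G] [MulAction G L] [MulAction G M] [MulAction G M']

open Classical in
/-- The vector with value `s` at `z` and zero elsewhere. -/
noncomputable def ev (z : L) (s : V4) : L → V4 := fun y => if y = z then s else 0

theorem ev_add (z : L) (s t : V4) : ev z (s + t) = ev z s + ev z t := by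
  funext y
  simp only [ev, Pi.add_apply]
  split_ifs <;> simp

theorem ev_zero (z : L) : ev z 0 = 0 := by
  funext y
  simp [ev]

theorem ev_smul (k : G) (z : L) (s : V4) : (fun y => ev z s (k⁻¹ • y)) = ev (k • z) s := by
  funext y
  by_cases h : y = k • z
  · have h1 : k⁻¹ • y = z := by rw [h, inv_smul_smul]
    simp only [ev, if_pos h, if_pos h1]
  · have h1 : ¬ k⁻¹ • y = z := fun h2 => h (by rw [← h2, smul_inv_smul])
    simp only [ev, if_neg h, if_neg h1]

theorem fun_add_self (f : L → V4) : f + f = 0 := by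
  funext y
  exact v4_add_self _

/-- A power of `b` with exponent a power of `13` has order prime to `13` on `M`. -/
theorem exists_pow [Finite M] (b : G) : ∃ e N : ℕ, ¬ 13 ∣ N ∧
    ∀ v : M, ((b ^ (13 ^ e)) ^ N) • v = v := by
  have hfin : orderOf (MulAction.toPermHom G M b) ≠ 0 := by
    exact (orderOf_pos _).ne'
  obtain ⟨e, N, hN, h⟩ := Nat.exists_eq_pow_mul_and_not_dvd hfin 13 (by norm_num)
  refine ⟨e, N, hN, fun v => ?_⟩
  have h1 := pow_orderOf_eq_one (MulAction.toPermHom G M b)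
  rw [h, ← map_pow] at h1
  have h2 := congrArg (fun f : Equiv.Perm M => f v) h1
  simp only [Equiv.Perm.coe_one, id] at h2
  rw [← pow_mul]
  exact h2

variable [AddAction (ZMod 13) L] [AddAction V4 M'] [Finite M]
variable (p : L → M) (q : M' → L) (hp : Fib G (ZMod 13) L M p) (hq : Fib G V4 M' L q)

include hp hq in
/-- The basic pair vector. -/
theorem basic (hA : PropA G p) (hB : PropB G p) (s : V4) (z0 : L) (b : G)
    (hb1 : ∀ z, p z = p z0 → b • z = z) (hb2 : ∀ w, q w = z0 → b • w = s +ᵥ w)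
    (hb3 : ∀ w, p (q w) = p z0 → q w ≠ z0 → b • w = w) :
    ∃ (γ : M → ZMod 13), γ ∈ Gam G (A := ZMod 13) p ∧ γ (p z0) ≠ 0 ∧
      ev z0 s + ev (γ (p z0) +ᵥ z0) s ∈ Gam G (A := V4) q := by
  classical
  obtain ⟨e, N, hN, hbN⟩ := exists_pow (M := M) b
  set b' : G := b ^ (13 ^ e) with hb'
  -- properties of `b'`
  have hpow1 : ∀ (n : ℕ) (z : L), p z = p z0 → (b ^ n) • z = z := by
    intro n z hz
    induction n with
    | zero => rw [pow_zero, one_smul]
    | succ n ih => rw [pow_succ, mul_smul, hb1 z hz, ih]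
  have hpow2 : ∀ (n : ℕ) (w : M'), q w = z0 → (b ^ n) • w = (n • s) +ᵥ w := by
    intro n w hw
    induction n with
    | zero => rw [pow_zero, one_smul, zero_nsmul, zero_vadd]
    | succ n ih => rw [pow_succ, mul_smul, hb2 w hw, hq.comm, ih, succ_nsmul', add_vadd]
  have hpow3 : ∀ (n : ℕ) (w : M'), p (q w) = p z0 → q w ≠ z0 → (b ^ n) • w = w := by
    intro n w hw1 hw2
    induction n with
    | zero => rw [pow_zero, one_smul]
    | succ n ih => rw [pow_succ, mul_smul, hb3 w hw1 hw2, ih]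
  have hc1 : ∀ z, p z = p z0 → b' • z = z := fun z hz => hpow1 _ z hz
  have hodd : (13 ^ e) • s = s := nsmul_odd v4_add_self (Odd.pow (by decide)) s
  have hc2 : ∀ w, p (q w) = p z0 → b' • w = ev z0 s (q w) +ᵥ w := by
    intro w hw
    by_cases h : q w = z0
    · have : ev z0 s (q w) = s := by simp only [ev, if_pos h]
      rw [this, hb', hpow2 _ w h, hodd]
    · have : ev z0 s (q w) = 0 := by simp only [ev, if_neg h]
      rw [this, hb', hpow3 _ w hw h, zero_vadd]
  have hc2' : ∀ w, p (q w) = p z0 → b'⁻¹ • w = ev z0 s (q w) +ᵥ w := by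
    intro w hw
    rw [inv_smul_eq_iff, hq.comm, hc2 w hw, ← add_vadd, v4_add_self, zero_vadd]
  have hu : ∀ n : ℕ, (b' ^ n)⁻¹ • p z0 = p z0 := by
    intro n
    rw [inv_smul_eq_iff]
    have : b' ^ n • z0 = z0 := by
      rw [hb', ← pow_mul]
      exact hpow1 _ _ rfl
    rw [← hp.equiv, this]
  -- the invariant rotation
  obtain ⟨γ0, hγ0, hne⟩ := hA (p z0)
  set γ : M → ZMod 13 := ∑ t ∈ range N, fun v => γ0 ((b' ^ t)⁻¹ • v) with hγ
  have hγmem : γ ∈ Gam G (A := ZMod 13) p := by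
    rw [← mem_GamS hp]
    refine AddSubgroup.sum_mem _ fun t _ => ?_
    exact gam_conj hp hγ0 (b' ^ t)
  have hγval : ∀ v, γ v = ∑ t ∈ range N, γ0 ((b' ^ t)⁻¹ • v) := by
    intro v
    simp only [hγ, Finset.sum_apply]
  have hγinv : ∀ v, γ (b'⁻¹ • v) = γ v := by
    intro v
    rw [hγval, hγval]
    have h1 : ∀ t, γ0 ((b' ^ t)⁻¹ • b'⁻¹ • v) = γ0 ((b' ^ (t + 1))⁻¹ • v) := by
      intro t
      rw [← mul_smul, ← mul_inv_rev, ← pow_succ']
    rw [Finset.sum_congr rfl fun t _ => h1 t]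
    have h2 := Finset.sum_range_succ (fun t => γ0 ((b' ^ t)⁻¹ • v)) N
    have h3 := Finset.sum_range_succ' (fun t => γ0 ((b' ^ t)⁻¹ • v)) N
    have h4 : (b' ^ N)⁻¹ • v = v := by
      rw [inv_smul_eq_iff, hbN]
    rw [h3, h4, pow_zero, inv_one, one_smul] at h2
    exact add_right_cancel h2
  have hγu : γ (p z0) ≠ 0 := by
    rw [hγval, Finset.sum_congr rfl fun t _ => by rw [hu t], Finset.sum_const, card_range,
      nsmul_eq_mul]
    refine mul_ne_zero ?_ hne
    rwa [Ne, ZMod.natCast_eq_zero_iff]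
  refine ⟨γ, hγmem, hγu, ?_⟩
  obtain ⟨g, hg⟩ := hγmem
  have hg' : ∀ x : L, g⁻¹ • x = (-γ (p x)) +ᵥ x := by
    intro x
    rw [inv_smul_eq_iff, hp.comm, hg, ← add_vadd, neg_add_cancel, zero_vadd]
  -- the commutator fixes `L`
  have hfix : ∀ z : L, (b' * g * b'⁻¹ * g⁻¹) • z = z := by
    intro z
    rw [mul_smul, mul_smul, mul_smul, hg', hp.comm, hg, hp.fib, hp.equiv, hγinv, ← add_vadd,
      hp.comm, smul_inv_smul, add_neg_cancel, zero_vadd]
  obtain ⟨δ, hδ, hδv⟩ := gam_of_fix hq _ hfix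
  have hδval : ∀ y, p y = p z0 → δ y = ev z0 s y + ev z0 s ((-γ (p z0)) +ᵥ y) := by
    intro y hy
    obtain ⟨w, rfl⟩ := hq.surj y
    have h1 : q (g⁻¹ • w) = (-γ (p z0)) +ᵥ q w := by
      rw [hq.equiv, hg', hy]
    have h2 : p (q (g⁻¹ • w)) = p z0 := by rw [h1, hp.fib, hy]
    have h3 := hδv w
    rw [mul_smul, mul_smul, mul_smul, hc2' _ h2, hq.comm, smul_inv_smul, hq.comm, hc2 _ hy, h1,
      ← add_vadd] at h3
    rw [← hq.vadd_inj h3, add_comm]
  have hiso := isoL p q hp hq hA hB δ hδ (p z0)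
  convert hiso using 1
  funext y
  by_cases hy : p y = p z0
  · rw [if_pos hy, hδval y hy]
    have h4 : ∀ k : ZMod 13, δ (k +ᵥ y) = ev z0 s (k +ᵥ y) +
        ev z0 s ((-γ (p z0)) +ᵥ (k +ᵥ y)) := fun k => hδval _ (by rw [hp.fib, hy])
    rw [Finset.sum_congr rfl fun k _ => h4 k, Finset.sum_add_distrib]
    have h5 : ∑ k : ZMod 13, ev z0 s ((-γ (p z0)) +ᵥ (k +ᵥ y)) =
        ∑ k : ZMod 13, ev z0 s (k +ᵥ y) := by
      rw [← Equiv.sum_comp (Equiv.addLeft (-γ (p z0))) fun k => ev z0 s (k +ᵥ y)]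
      refine Finset.sum_congr rfl fun k _ => ?_
      rw [Equiv.coe_addLeft, add_vadd]
    rw [h5, v4_add_self, add_zero, Pi.add_apply]
    congr 1
    simp only [ev, neg_vadd_eq_iff]
  · rw [if_neg hy]
    have h6 : y ≠ z0 := fun h => hy (by rw [h])
    have h7 : y ≠ γ (p z0) +ᵥ z0 := fun h => hy (by rw [h, hp.fib])
    simp only [Pi.add_apply, ev, if_neg h6, if_neg h7, add_zero]

include hp hq in
/-- All pairs in the block of `z0`. -/
theorem pairs_block (hA : PropA G p) (hB : PropB G p) (s : V4) (z0 : L) (b : G)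
    (hb1 : ∀ z, p z = p z0 → b • z = z) (hb2 : ∀ w, q w = z0 → b • w = s +ᵥ w)
    (hb3 : ∀ w, p (q w) = p z0 → q w ≠ z0 → b • w = w) (c : ZMod 13) :
    ev z0 s + ev (c +ᵥ z0) s ∈ Gam G (A := V4) q := by
  classical
  obtain ⟨γ, hγ, hne, hmem⟩ := basic p q hp hq hA hB s z0 b hb1 hb2 hb3
  obtain ⟨g, hg⟩ := hγ
  set n := γ (p z0) with hn
  have h0 : ∀ (c : ZMod 13), g • (c +ᵥ z0) = (n + c) +ᵥ z0 := by
    intro c
    rw [hg, hp.fib, ← hn, add_vadd]
  have h1 : ∀ k : ℕ, ev ((k • n) +ᵥ z0) s + ev (((k + 1) • n) +ᵥ z0) s ∈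
      Gam G (A := V4) q := by
    intro k
    induction k with
    | zero => simpa using hmem
    | succ k ih =>
      have h2 := gam_conj hq ih g
      have h3 : (fun y => (ev ((k • n) +ᵥ z0) s + ev (((k + 1) • n) +ᵥ z0) s) (g⁻¹ • y)) =
          ev (((k + 1) • n) +ᵥ z0) s + ev (((k + 1 + 1) • n) +ᵥ z0) s := by
        have h4 := ev_smul g ((k • n) +ᵥ z0) s
        have h5 := ev_smul g (((k + 1) • n) +ᵥ z0) s
        rw [h0, ← succ_nsmul'] at h4 h5
        funext y
        have h6 := congrFun h4 y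
        have h7 := congrFun h5 y
        simp only [Pi.add_apply] at h6 h7 ⊢
        rw [h6, h7]
      rw [← h3]
      exact h2
  have h2 : ∀ k : ℕ, ev z0 s + ev ((k • n) +ᵥ z0) s ∈ GamS G q hq := by
    intro k
    induction k with
    | zero =>
      rw [zero_nsmul, zero_vadd, fun_add_self]
      exact AddSubgroup.zero_mem _
    | succ k ih =>
      have h3 := AddSubgroup.add_mem _ ih ((mem_GamS hq _).2 (h1 k))
      have h4 : ev z0 s + ev ((k • n) +ᵥ z0) s + (ev ((k • n) +ᵥ z0) s +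
          ev (((k + 1) • n) +ᵥ z0) s) = ev z0 s + ev (((k + 1) • n) +ᵥ z0) s := by
        rw [add_assoc, ← add_assoc (ev ((k • n) +ᵥ z0) s), fun_add_self, zero_add]
      rwa [h4] at h3
  have h3 : (c / n).val • n = c := by
    rw [nsmul_eq_mul, ZMod.natCast_val, ZMod.cast_id, div_mul_cancel₀ _ hne]
  have h4 := h2 (c / n).val
  rw [h3] at h4
  exact h4

include hp hq in
/-- All pairs with the label `s`. -/
theorem pairs (hA : PropA G p) (hB : PropB G p) (hT : Tr G M) (s : V4) (z0 : L) (b : G)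
    (hb1 : ∀ z, p z = p z0 → b • z = z) (hb2 : ∀ w, q w = z0 → b • w = s +ᵥ w)
    (hb3 : ∀ w, p (q w) = p z0 → q w ≠ z0 → b • w = w) (z z' : L) (h : p z = p z') :
    ev z s + ev z' s ∈ GamS G q hq := by
  classical
  have h0 : ∀ c c' : ZMod 13, ev (c +ᵥ z0) s + ev (c' +ᵥ z0) s ∈ GamS G q hq := by
    intro c c'
    have h1 := AddSubgroup.add_mem _
      ((mem_GamS hq _).2 (pairs_block p q hp hq hA hB s z0 b hb1 hb2 hb3 c))
      ((mem_GamS hq _).2 (pairs_block p q hp hq hA hB s z0 b hb1 hb2 hb3 c'))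
    have h2 : ev z0 s + ev (c +ᵥ z0) s + (ev z0 s + ev (c' +ᵥ z0) s) =
        ev (c +ᵥ z0) s + ev (c' +ᵥ z0) s := by
      rw [add_comm (ev z0 s) (ev (c +ᵥ z0) s), add_assoc, ← add_assoc (ev z0 s), fun_add_self,
        zero_add]
    rwa [h2] at h1
  obtain ⟨k, hk⟩ := hT (p z0) (p z)
  obtain ⟨c, hc⟩ := hp.trans z0 (k⁻¹ • z) (by rw [hp.equiv, ← hk, inv_smul_smul])
  obtain ⟨c', hc'⟩ := hp.trans z0 (k⁻¹ • z') (by rw [hp.equiv, ← h, ← hk, inv_smul_smul])
  have h1 := h0 c c'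
  rw [← hc, ← hc'] at h1
  have h2 := gam_conj hq ((mem_GamS hq _).1 h1) k
  have h3 : (fun y => (ev (k⁻¹ • z) s + ev (k⁻¹ • z') s) (k⁻¹ • y)) = ev z s + ev z' s := by
    have h4 := ev_smul k (k⁻¹ • z) s
    have h5 := ev_smul k (k⁻¹ • z') s
    rw [smul_inv_smul] at h4 h5
    funext y
    have h6 := congrFun h4 y
    have h7 := congrFun h5 y
    simp only [Pi.add_apply] at h6 h7 ⊢
    rw [h6, h7]
  rw [h3] at h2
  exact h2

end Step

/-- row G1 (helper62) -/
theorem step1 {G L M M' : Type*} [Group G] [MulAction G L] [MulAction G M] [MulAction G M']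
    [AddAction (ZMod 13) L] [AddAction V4 M'] [Finite M] [Finite L] [Finite M']
    (p : L → M) (q : M' → L) (hp : Fib G (ZMod 13) L M p) (hq : Fib G V4 M' L q)
    (hA : PropA G p) (hB : PropB G p) (hT : Tr G M) (hP : HypP G p q) : PropC G p q := by
  classical
  intro z z' hzz hne s
  have h10 : ∀ t : V4, (t = (1, 0) ∨ t = (0, 1)) → ev z t + ev z' t ∈ GamS G q hq := by
    intro t ht
    obtain ⟨z0, b, hb1, hb2, hb3⟩ := hP t ht
    exact pairs p q hp hq hA hB hT t z0 b hb1 hb2 hb3 z z' hzz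
  have h1 : ev z s + ev z' s ∈ GamS G q hq := by
    have h2 : s = (0, 0) ∨ s = (1, 0) ∨ s = (0, 1) ∨ s = (1, 0) + (0, 1) := by
      revert s
      decide
    rcases h2 with h | h | h | h
    · have : s = 0 := h
      rw [this, ev_zero, ev_zero, add_zero]
      exact AddSubgroup.zero_mem _
    · exact h10 s (Or.inl h)
    · exact h10 s (Or.inr h)
    · rw [h, ev_add, ev_add]
      have h3 := AddSubgroup.add_mem _ (h10 (1, 0) (Or.inl rfl)) (h10 (0, 1) (Or.inr rfl))
      convert h3 using 1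
      abel
  refine ⟨ev z s + ev z' s, h1, ?_, ?_, ?_⟩
  · simp only [Pi.add_apply, ev, if_neg hne, if_true, add_zero]
  · simp only [Pi.add_apply, ev, if_neg (Ne.symm hne), if_true, zero_add]
  · intro y h2 h3
    simp only [Pi.add_apply, ev, if_neg h2, if_neg h3, add_zero]

end Pool.Agent.Arb
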