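import Pool.Agent.Lib.MP_07117b_nt_h64.LocDefs

/-! MP_07117b_nt, arboreal Galois groups: the four children of a `G`-type node (row L2). -/

namespace Pool.Agent.Arb

open Polynomial

theorem quartic62 {Ω : Type*} [Field Ω] [IsAlgClosed Ω] (a z : Ω) : ∃ w0 w1 w2 w3 : Ω, ∀ x : Ω,
    x ^ 4 + 2 * a * z * x ^ 3 - 2 * a * x - z = (x - w0) * (x - w1) * (x - w2) * (x - w3) := by
  set F : Polynomial Ω := X ^ 4 + C (2 * a * z) * X ^ 3 - C (2 * a) * X - C z with hF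
  have hdeg : F.natDegree = 4 := by
    rw [hF]
    compute_degree!
  have hmon : F.Monic := by
    rw [hF]
    monicity!
  have hs : Splits F := IsAlgClosed.splits F
  have hcard : F.roots.card = 4 := by
    rw [← hs.natDegree_eq_card_roots, hdeg]
  obtain ⟨w0, w1, w2, w3, hw⟩ := Multiset.card_eq_four.1 hcard
  refine ⟨w0, w1, w2, w3, fun x => ?_⟩
  have h1 := hs.eval_eq_prod_roots_of_monic hmon x
  rw [hw] at h1
  have h2 : F.eval x = x ^ 4 + 2 * a * z * x ^ 3 - 2 * a * x - z := by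
    rw [hF]
    simp
  rw [← h2, h1]
  simp [mul_assoc]

theorem mul3_small62 {x y z ρ : ℝ} (hx : 0 ≤ x) (hy : 0 ≤ y) (hρ : 0 < ρ)
    (h : x * y * z < ρ ^ 3) : x < ρ ∨ y < ρ ∨ z < ρ := by
  by_contra hcon
  push Not at hcon
  obtain ⟨h1, h2, h3⟩ := hcon
  have h4 : ρ * ρ ≤ x * y := mul_le_mul h1 h2 hρ.le hx
  have h5 : ρ * ρ * ρ ≤ x * y * z := mul_le_mul h4 h3 hρ.le (mul_nonneg hx hy)
  have h6 : ρ ^ 3 = ρ * ρ * ρ := by ring
  linarith

section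
variable {Ω : Type*} [NormedField Ω] {c : Cst Ω} {B : Subgroup (Ω ≃+* Ω)}

/-- isosceles triangles -/
theorem Loc3.iso62 (h : Loc3 c B) {x y : Ω} (hxy : ‖y‖ < ‖x‖) : ‖x + y‖ = ‖x‖ := by
  refine le_antisymm ?_ ?_
  · exact (h.ultra x y).trans (max_le le_rfl hxy.le)
  · have h1 := h.ultra (x + y) (-y)
    rw [add_neg_cancel_right, norm_neg] at h1
    rcases le_max_iff.1 h1 with h2 | h2
    · exact h2
    · linarith

theorem Loc3.lt62 (h : Loc3 c B) {x y : Ω} {r : ℝ} (hx : ‖x‖ < r) (hy : ‖y‖ < r) :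
    ‖x + y‖ < r := (h.ultra x y).trans_lt (max_lt hx hy)

/-- the norms needed for the four children -/
theorem Loc3.facts62 (h : Loc3 c B) : ‖c.ω‖ = 1 ∧ ‖1 + 2 * c.a‖ = 1 / 9 ∧
    ‖1 - c.ω‖ ^ 2 = 1 / 3 ∧ ‖1 - c.ω ^ 2‖ ^ 2 = 1 / 3 ∧ ‖c.ω - c.ω ^ 2‖ ^ 2 = 1 / 3 := by
  have hω3 : c.ω ^ 3 = 1 := by linear_combination (c.ω - 1) * c.hω
  have nω : ‖c.ω‖ = 1 := by
    have h1 : ‖c.ω‖ ^ 3 = 1 := by rw [← norm_pow, hω3, norm_one]
    exact (pow_eq_one_iff_of_nonneg (norm_nonneg _) (by norm_num)).1 h1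
  have n2 : ‖(2 : Ω)‖ ≤ 1 := by
    have h1 : (2 : Ω) = 1 + 1 := by norm_num
    rw [h1]
    refine (h.ultra _ _).trans ?_
    rw [norm_one, max_self]
  have n12 : ‖1 - 2 * c.a‖ = 1 := by
    have h1 : 1 - 2 * c.a = -1 + -(2 * (c.a - 1)) := by ring
    have h2 : ‖2 * (c.a - 1)‖ < 1 := by
      rw [norm_mul]
      have := h.ha1
      nlinarith [norm_nonneg (c.a - 1), norm_nonneg (2 : Ω)]
    rw [h1, h.iso62, norm_neg, norm_one]
    rw [norm_neg, norm_neg, norm_one]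
    exact h2
  have n12' : ‖1 + 2 * c.a‖ = 1 / 9 := by
    have h1 : (1 - 2 * c.a) * (1 + 2 * c.a) = 3 * 3 := by linear_combination (-4) * c.ha
    have h2 := congrArg norm h1
    rw [norm_mul, norm_mul, n12, one_mul, h.three] at h2
    rw [h2]
    norm_num
  have n1 : ‖1 - c.ω‖ ^ 2 = 1 / 3 := by
    have h1 : (1 - c.ω) ^ 2 * c.ω ^ 2 = -3 * 1 := by
      linear_combination (c.ω ^ 2 - 3 * c.ω + 3) * c.hω
    have h2 := congrArg norm h1
    rw [norm_mul, norm_pow, norm_pow, nω, norm_mul, norm_neg, h.three, norm_one] at h2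
    linarith
  refine ⟨nω, n12', n1, ?_, ?_⟩
  · have h1 : 1 - c.ω ^ 2 = (1 - c.ω) * -c.ω ^ 2 := by
      linear_combination (1 - c.ω) * c.hω
    rw [h1, norm_mul, norm_neg, norm_pow, nω, one_pow, mul_one, n1]
  · have h1 : c.ω - c.ω ^ 2 = c.ω * (1 - c.ω) := by ring
    rw [h1, norm_mul, nω, one_mul, n1]

variable [CharZero Ω]

theorem P_eq_iff62 (c : Cst Ω) {z : Ω} (hz : z ≠ 0) (w : Ω) :
    c.P w = z ↔ w ^ 4 + 2 * c.a * z * w ^ 3 - 2 * c.a * w - z = 0 := by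
  have ha : c.a ≠ 0 := by
    intro h0
    have := c.ha
    rw [h0] at this
    norm_num at this
  unfold Cst.P
  by_cases hw : 1 - 2 * c.a * w ^ 3 = 0
  · rw [hw, div_zero]
    constructor
    · intro h
      exact absurd h.symm hz
    · intro h
      exfalso
      have h1 : w * (w ^ 3 - 2 * c.a) = 0 := by linear_combination h + z * hw
      have h2 : w ≠ 0 := by
        rintro rfl
        norm_num at hw
      have h3 : w ^ 3 = 2 * c.a := by
        rcases mul_eq_zero.1 h1 with h4 | h4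
        · exact absurd h4 h2
        · exact sub_eq_zero.1 h4
      rw [h3] at hw
      have h5 : (9 : Ω) = 0 := by linear_combination hw + 4 * c.ha
      norm_num at h5
  · rw [div_eq_iff hw]
    constructor
    · intro h
      linear_combination h
    · intro h
      linear_combination h

/-- row L2: the four children of a `G`-type node -/
theorem Loc3.roots4 [IsAlgClosed Ω] (h : Loc3 c B) {z : Ω} (hz : GT B z) : ∃ (uO : Ω) (u : Fin 3 → Ω),
    (∀ w : Ω, c.P w = z ↔ (w = uO ∨ ∃ i, w = u i)) ∧ ‖uO - z‖ < 1 ∧ (∀ b ∈ B, b uO = uO) ∧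
    (∀ i, (∀ b ∈ B, b (u i) = u i)) ∧ (∀ i, ‖u i + c.ω ^ (i : ℕ)‖ = 1 / 3) := by
  obtain ⟨nω, n12a, n1, n2', n3⟩ := h.facts62
  obtain ⟨hzB, hz1, hz2, hz3⟩ := hz
  have hz0 : z ≠ 0 := by
    intro h0
    rw [h0, norm_zero] at hz1
    exact zero_ne_one hz1
  have hω3 : c.ω ^ 3 = 1 := by linear_combination (c.ω - 1) * c.hω
  -- the number `ρ`
  set ρ : ℝ := ‖1 - c.ω‖ with hρ
  have hρ0 : 0 ≤ ρ := norm_nonneg _
  have hρpos : 0 < ρ := by
    rcases hρ0.eq_or_lt with h1 | h1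
    · rw [← h1] at n1
      norm_num at n1
    · exact h1
  have hρlt : ρ < 1 := by nlinarith
  have e2 : ‖1 - c.ω ^ 2‖ = ρ := by
    have h1 : ‖1 - c.ω ^ 2‖ ^ 2 = ρ ^ 2 := by rw [n1, n2']
    exact (pow_left_inj₀ (norm_nonneg _) hρ0 two_ne_zero).1 h1
  have e3 : ‖c.ω - c.ω ^ 2‖ = ρ := by
    have h1 : ‖c.ω - c.ω ^ 2‖ ^ 2 = ρ ^ 2 := by rw [n1, n3]
    exact (pow_left_inj₀ (norm_nonneg _) hρ0 two_ne_zero).1 h1
  have e1 : ‖1 - c.ω‖ = ρ := rfl
  -- factorisation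
  have hfac : ∃ w0 w1 w2 w3 : Ω, (∀ x : Ω, x ^ 4 + 2 * c.a * z * x ^ 3 - 2 * c.a * x - z =
      (x - w0) * (x - w1) * (x - w2) * (x - w3)) ∧ ‖z - w0‖ < 1 := by
    obtain ⟨w0, w1, w2, w3, hw⟩ := quartic62 c.a z
    have h1 : ‖z - w0‖ * ‖z - w1‖ * ‖z - w2‖ * ‖z - w3‖ < 1 := by
      rw [← norm_mul, ← norm_mul, ← norm_mul, ← hw]
      have h2 : z ^ 4 + 2 * c.a * z * z ^ 3 - 2 * c.a * z - z =
          (1 + 2 * c.a) * (z * (z ^ 3 + -1)) := by ring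
      rw [h2, norm_mul, norm_mul, n12a, hz1]
      have h3 : ‖z ^ 3 + -1‖ ≤ 1 := by
        refine (h.ultra _ _).trans ?_
        rw [norm_pow, hz1, norm_neg, norm_one]
        norm_num
      nlinarith
    by_cases c0 : ‖z - w0‖ < 1
    · exact ⟨w0, w1, w2, w3, hw, c0⟩
    by_cases c1 : ‖z - w1‖ < 1
    · exact ⟨w1, w0, w2, w3, fun x => by rw [hw]; ring, c1⟩
    by_cases c2 : ‖z - w2‖ < 1
    · exact ⟨w2, w0, w1, w3, fun x => by rw [hw]; ring, c2⟩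
    by_cases c3 : ‖z - w3‖ < 1
    · exact ⟨w3, w0, w1, w2, fun x => by rw [hw]; ring, c3⟩
    exfalso
    push Not at c0 c1 c2 c3
    have h4 : 1 ≤ ‖z - w0‖ * ‖z - w1‖ := one_le_mul_of_one_le_of_one_le c0 c1
    have h5 := one_le_mul_of_one_le_of_one_le h4 c2
    have h6 := one_le_mul_of_one_le_of_one_le h5 c3
    linarith
  obtain ⟨uO, w1, w2, w3, hw, huO⟩ := hfac
  have hu1 : ‖uO - z‖ < 1 := by rwa [norm_sub_rev]
  -- distances from the outer root to the points `-ω^i`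
  have hωi : ∀ i : ℕ, ‖c.ω ^ i - 1‖ < 1 := by
    intro i
    have h1 : c.ω ^ i - 1 = (c.ω - 1) * ∑ k ∈ Finset.range i, c.ω ^ k := by
      rw [mul_geom_sum]
    rw [h1, norm_mul, norm_sub_rev, e1]
    have h2 : ‖∑ k ∈ Finset.range i, c.ω ^ k‖ ≤ 1 := by
      clear h1
      induction i with
      | zero => simp
      | succ i ih =>
        rw [Finset.sum_range_succ]
        refine (h.ultra _ _).trans (max_le ih ?_)
        rw [norm_pow, nω, one_pow]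
    nlinarith [norm_nonneg (∑ k ∈ Finset.range i, c.ω ^ k)]
  have hout : ∀ i : ℕ, ‖uO + c.ω ^ i‖ = 1 := by
    intro i
    have h1 : uO + c.ω ^ i = (z + 1) + ((uO - z) + (c.ω ^ i - 1)) := by ring
    rw [h1, h.iso62, hz3]
    rw [hz3]
    exact h.lt62 hu1 (hωi i)
  have hzi : ∀ i : ℕ, ‖c.ω ^ i - z‖ = 1 := by
    intro i
    have h1 : c.ω ^ i - z = -(z - 1) + (c.ω ^ i - 1) := by ring
    rw [h1, h.iso62, norm_neg, hz2]
    rw [norm_neg, hz2]
    exact hωi i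
  -- the products
  have hprod : ∀ i : ℕ, ‖w1 + c.ω ^ i‖ * ‖w2 + c.ω ^ i‖ * ‖w3 + c.ω ^ i‖ = 1 / 9 := by
    intro i
    have h3 : (c.ω ^ i) ^ 3 = 1 := by rw [← pow_mul, mul_comm, pow_mul, hω3, one_pow]
    have h1 := hw (-c.ω ^ i)
    have h2 : (-c.ω ^ i) ^ 4 + 2 * c.a * z * (-c.ω ^ i) ^ 3 - 2 * c.a * (-c.ω ^ i) - z =
        (1 + 2 * c.a) * (c.ω ^ i - z) := by
      linear_combination (c.ω ^ i - 2 * c.a * z) * h3
    rw [h2] at h1
    have h4 := congrArg norm h1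
    rw [norm_mul, n12a, hzi, norm_mul, norm_mul, norm_mul] at h4
    have e : ∀ x : Ω, ‖-c.ω ^ i - x‖ = ‖x + c.ω ^ i‖ := by
      intro x
      rw [← norm_neg]
      congr 1
      ring
    rw [e, e, e, e, hout, one_mul, mul_one] at h4
    exact h4.symm
  have hsmall : ∀ i : ℕ, ‖w1 + c.ω ^ i‖ * ‖w2 + c.ω ^ i‖ * ‖w3 + c.ω ^ i‖ < ρ ^ 3 := by
    intro i
    rw [hprod]
    have h1 : ρ ^ 4 = 1 / 9 := by
      have : ρ ^ 4 = (ρ ^ 2) ^ 2 := by ring
      rw [this, n1]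
      norm_num
    have h2 : ρ ^ 4 = ρ ^ 3 * ρ := by ring
    have h3 : 0 < ρ ^ 3 := by positivity
    nlinarith
  -- the inner roots
  set W : Fin 3 → Ω := ![w1, w2, w3] with hW
  have hprodW : ∀ i : ℕ, ∏ k, ‖W k + c.ω ^ i‖ = 1 / 9 := by
    intro i
    rw [Fin.prod_univ_three]
    exact hprod i
  have hex : ∀ i : Fin 3, ∃ k : Fin 3, ‖W k + c.ω ^ (i : ℕ)‖ < ρ := by
    intro i
    rcases mul3_small62 (norm_nonneg _) (norm_nonneg _) hρpos (hsmall i) with h1 | h1 | h1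
    · exact ⟨0, h1⟩
    · exact ⟨1, h1⟩
    · exact ⟨2, h1⟩
  choose k hk using hex
  have hdist : ∀ i j : Fin 3, i ≠ j → ‖c.ω ^ (i : ℕ) - c.ω ^ (j : ℕ)‖ = ρ := by
    intro i j hij
    fin_cases i <;> fin_cases j
    · exact absurd rfl hij
    · change ‖c.ω ^ 0 - c.ω ^ 1‖ = ρ
      rw [pow_zero, pow_one]
    · change ‖c.ω ^ 0 - c.ω ^ 2‖ = ρ
      rw [pow_zero, e2]
    · change ‖c.ω ^ 1 - c.ω ^ 0‖ = ρ
      rw [pow_zero, pow_one, norm_sub_rev]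
    · exact absurd rfl hij
    · change ‖c.ω ^ 1 - c.ω ^ 2‖ = ρ
      rw [pow_one, e3]
    · change ‖c.ω ^ 2 - c.ω ^ 0‖ = ρ
      rw [pow_zero, norm_sub_rev, e2]
    · change ‖c.ω ^ 2 - c.ω ^ 1‖ = ρ
      rw [pow_one, norm_sub_rev, e3]
    · exact absurd rfl hij
  have hkinj : Function.Injective k := by
    intro i j hij
    by_contra hne
    have h1 := hk i
    have h2 := hk j
    rw [← hij] at h2
    have h3 : ‖(W (k i) + c.ω ^ (i : ℕ)) + -(W (k i) + c.ω ^ (j : ℕ))‖ < ρ :=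
      h.lt62 h1 (by rwa [norm_neg])
    have h4 : (W (k i) + c.ω ^ (i : ℕ)) + -(W (k i) + c.ω ^ (j : ℕ)) =
        c.ω ^ (i : ℕ) - c.ω ^ (j : ℕ) := by ring
    rw [h4, hdist i j hne] at h3
    exact lt_irrefl _ h3
  have hkbij : Function.Bijective k := Finite.injective_iff_bijective.1 hkinj
  have hoff : ∀ i j : Fin 3, i ≠ j → ‖W (k i) + c.ω ^ (j : ℕ)‖ = ρ := by
    intro i j hij
    have h1 : W (k i) + c.ω ^ (j : ℕ) =
        (c.ω ^ (j : ℕ) - c.ω ^ (i : ℕ)) + (W (k i) + c.ω ^ (i : ℕ)) := by ring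
    rw [h1, h.iso62, hdist j i (Ne.symm hij)]
    rw [hdist j i (Ne.symm hij)]
    exact hk i
  have hon : ∀ j : Fin 3, ‖W (k j) + c.ω ^ (j : ℕ)‖ = 1 / 3 := by
    intro j
    have h1 : ∏ i, ‖W (k i) + c.ω ^ (j : ℕ)‖ = 1 / 9 := by
      rw [← hprodW j]
      exact hkbij.prod_comp fun i => ‖W i + c.ω ^ (j : ℕ)‖
    rw [Fin.prod_univ_three] at h1
    fin_cases j
    · have h2 := hoff 1 0 (by decide)
      have h3 := hoff 2 0 (by decide)
      change ‖W (k 0) + c.ω ^ 0‖ * ‖W (k 1) + c.ω ^ 0‖ * ‖W (k 2) + c.ω ^ 0‖ = 1 / 9 at h1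
      change ‖W (k 1) + c.ω ^ 0‖ = ρ at h2
      change ‖W (k 2) + c.ω ^ 0‖ = ρ at h3
      change ‖W (k 0) + c.ω ^ 0‖ = 1 / 3
      rw [h2, h3, mul_assoc, ← sq, n1] at h1
      linarith
    · have h2 := hoff 0 1 (by decide)
      have h3 := hoff 2 1 (by decide)
      change ‖W (k 0) + c.ω ^ 1‖ * ‖W (k 1) + c.ω ^ 1‖ * ‖W (k 2) + c.ω ^ 1‖ = 1 / 9 at h1
      change ‖W (k 0) + c.ω ^ 1‖ = ρ at h2
      change ‖W (k 2) + c.ω ^ 1‖ = ρ at h3
      change ‖W (k 1) + c.ω ^ 1‖ = 1 / 3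
      rw [h2, h3, mul_comm ρ, mul_assoc, ← sq, n1] at h1
      linarith
    · have h2 := hoff 0 2 (by decide)
      have h3 := hoff 1 2 (by decide)
      change ‖W (k 0) + c.ω ^ 2‖ * ‖W (k 1) + c.ω ^ 2‖ * ‖W (k 2) + c.ω ^ 2‖ = 1 / 9 at h1
      change ‖W (k 0) + c.ω ^ 2‖ = ρ at h2
      change ‖W (k 1) + c.ω ^ 2‖ = ρ at h3
      change ‖W (k 2) + c.ω ^ 2‖ = 1 / 3
      rw [h2, h3, ← sq, n1] at h1
      linarith
  have hroot : ∀ w : Ω, c.P w = z ↔ (w = uO ∨ ∃ i, w = W (k i)) := by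
    intro w
    rw [P_eq_iff62 c hz0, hw w]
    have h1 : (w - w1) * (w - w2) * (w - w3) = ∏ i, (w - W (k i)) := by
      rw [hkbij.prod_comp fun i => w - W i, Fin.prod_univ_three]
      rfl
    have h2 : (w - uO) * (w - w1) * (w - w2) * (w - w3) =
        (w - uO) * ∏ i, (w - W (k i)) := by
      rw [← h1]
      ring
    rw [h2, mul_eq_zero, Finset.prod_eq_zero_iff, sub_eq_zero]
    constructor
    · rintro (h3 | ⟨i, -, h3⟩)
      · exact Or.inl h3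
      · exact Or.inr ⟨i, sub_eq_zero.1 h3⟩
    · rintro (h3 | ⟨i, h3⟩)
      · exact Or.inl h3
      · exact Or.inr ⟨i, Finset.mem_univ _, sub_eq_zero.2 h3⟩
  have hbP : ∀ b ∈ B, ∀ w, c.P w = z → c.P (b w) = z := by
    intro b hb w hw'
    have h1 : b (c.P w) = c.P (b w) := by
      unfold Cst.P
      rw [map_div₀, map_mul, map_sub, map_pow, map_mul, map_sub, map_mul, map_mul, map_pow,
        h.fa b hb, map_one, map_ofNat]
    rw [← h1, hw', hzB b hb]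
  have hzv : ∀ i : Fin 3, ‖W (k i) - z‖ = 1 := by
    intro i
    have h1 : W (k i) - z = -(z + 1) + (-(c.ω ^ (i : ℕ) - 1) + (W (k i) + c.ω ^ (i : ℕ))) := by
      ring
    rw [h1, h.iso62, norm_neg, hz3]
    rw [norm_neg, hz3]
    refine h.lt62 (by rw [norm_neg]; exact hωi i) ?_
    rw [hon]
    norm_num
  refine ⟨uO, fun i => W (k i), hroot, hu1, ?_, ?_, hon⟩
  · intro b hb
    have h1 := (hroot _).1 (hbP b hb uO ((hroot uO).2 (Or.inl rfl)))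
    rcases h1 with h1 | ⟨i, h1⟩
    · exact h1
    · exfalso
      have h2 : ‖b (uO - z)‖ = ‖uO - z‖ := h.isom b hb _
      rw [map_sub, hzB b hb, h1, hzv i] at h2
      linarith
  · intro i b hb
    have h1 := (hroot _).1 (hbP b hb (W (k i)) ((hroot _).2 (Or.inr ⟨i, rfl⟩)))
    have h2 : ‖b (W (k i) + c.ω ^ (i : ℕ))‖ = ‖W (k i) + c.ω ^ (i : ℕ)‖ := h.isom b hb _
    rw [map_add, map_pow, h.fω b hb, hon i] at h2
    rcases h1 with h1 | ⟨j, h1⟩
    · exfalso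
      rw [h1, hout] at h2
      norm_num at h2
    · by_cases hij : j = i
      · rw [h1, hij]
      · exfalso
        rw [h1, hoff j i hij] at h2
        rw [h2] at n1
        norm_num at n1

end

end Pool.Agent.Arb
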