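import Mathlib

/-! MP_07117b_nt, arboreal Galois groups: generic degree estimates for fields generated by
finite sets. -/

namespace Pool.Agent.Arb

open Polynomial IntermediateField

variable {K Ω : Type*} [Field K] [Field Ω] [Algebra K Ω]

/-- Adjoining a root of a polynomial of degree at most `n`. -/
theorem exists_adj (E : IntermediateField K Ω) [FiniteDimensional K E] (x : Ω) (n : ℕ)
    (P : Polynomial E) (hP : P ≠ 0) (hdeg : P.natDegree ≤ n) (hx : aeval x P = 0) :
    ∃ E' : IntermediateField K Ω, E ≤ E' ∧ x ∈ E' ∧ FiniteDimensional K E' ∧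
      Module.finrank K E' ≤ Module.finrank K E * n := by
  have halg : IsAlgebraic E x := ⟨P, hP, hx⟩
  have hint : IsIntegral E x := halg.isIntegral
  have hfd1 : FiniteDimensional E (adjoin E {x}) := adjoin.finiteDimensional hint
  have hfd2 : FiniteDimensional K (adjoin E {x}) := FiniteDimensional.trans K E (adjoin E {x})
  refine ⟨(adjoin E {x}).restrictScalars K, ?_, ?_, ?_, ?_⟩
  · intro y hy
    exact (adjoin E {x}).algebraMap_mem ⟨y, hy⟩
  · exact mem_adjoin_simple_self E x
  · exact hfd2
  · have h1 : Module.finrank K (adjoin E {x}) = Module.finrank K E *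
        Module.finrank E (adjoin E {x}) :=
      (Module.finrank_mul_finrank K E (adjoin E {x})).symm
    have h2 : Module.finrank E (adjoin E {x}) ≤ n := by
      rw [adjoin.finrank hint]
      exact (natDegree_le_of_dvd (minpoly.dvd E x hx) hP).trans hdeg
    calc Module.finrank K ((adjoin E {x}).restrictScalars K)
        = Module.finrank K (adjoin E {x}) := rfl
      _ = Module.finrank K E * Module.finrank E (adjoin E {x}) := h1
      _ ≤ _ := Nat.mul_le_mul_left _ h2

/-- Adjoining an `n`-th root. -/
theorem exists_adj_pow (E : IntermediateField K Ω) [FiniteDimensional K E] (x : Ω) (n : ℕ)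
    (hn : 0 < n) (hx : x ^ n ∈ E) :
    ∃ E' : IntermediateField K Ω, E ≤ E' ∧ x ∈ E' ∧ FiniteDimensional K E' ∧
      Module.finrank K E' ≤ Module.finrank K E * n := by
  refine exists_adj E x n (X ^ n - C ⟨x ^ n, hx⟩) (X_pow_sub_C_ne_zero hn _) ?_ ?_
  · rw [natDegree_X_pow_sub_C]
  · rw [map_sub, map_pow, aeval_X, aeval_C]
    exact sub_self _

/-- Adjoining a finite family of elements of degree at most `n` (over all larger fields). -/
theorem exists_adj_family {ι : Type*} (T : Finset ι) (x : ι → Ω) (n : ℕ)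
    (E : IntermediateField K Ω) [FiniteDimensional K E]
    (h : ∀ i ∈ T, ∀ F : IntermediateField K Ω, E ≤ F → FiniteDimensional K F →
      ∃ E' : IntermediateField K Ω, F ≤ E' ∧ x i ∈ E' ∧ FiniteDimensional K E' ∧
      Module.finrank K E' ≤ Module.finrank K F * n) :
    ∃ E' : IntermediateField K Ω, E ≤ E' ∧ (∀ i ∈ T, x i ∈ E') ∧ FiniteDimensional K E' ∧
      Module.finrank K E' ≤ Module.finrank K E * n ^ T.card := by
  classical
  induction T using Finset.induction_on with
  | empty => exact ⟨E, le_rfl, by simp, inferInstance, by simp⟩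
  | insert a s ha ih =>
    obtain ⟨E1, h1, h2, h3, h4⟩ := ih fun i hi => h i (Finset.mem_insert_of_mem hi)
    obtain ⟨E2, h5, h6, h7, h8⟩ := h a (Finset.mem_insert_self a s) E1 h1 h3
    refine ⟨E2, h1.trans h5, ?_, h7, ?_⟩
    · intro i hi
      rcases Finset.mem_insert.1 hi with rfl | hi
      · exact h6
      · exact h5 (h2 i hi)
    · rw [Finset.card_insert_of_notMem ha, pow_succ, ← mul_assoc]
      exact h8.trans (Nat.mul_le_mul_right _ h4)

/-- (UP) adjoining 13th roots and then, for each of them, thirteen square roots. -/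
theorem up_bound {ι : Type*} (T : Finset ι) (E : IntermediateField K Ω) [FiniteDimensional K E]
    (z : ι → Ω) (hz : ∀ i ∈ T, z i ^ 13 ∈ E) (y : ι → Fin 13 → Ω)
    (hy : ∀ i ∈ T, ∀ l, ∀ E' : IntermediateField K Ω, E ≤ E' → z i ∈ E' → y i l ^ 2 ∈ E') :
    ∃ E' : IntermediateField K Ω, E ≤ E' ∧ (∀ i ∈ T, z i ∈ E' ∧ ∀ l, y i l ∈ E') ∧
      FiniteDimensional K E' ∧
      Module.finrank K E' ≤ Module.finrank K E * (13 * 2 ^ 13) ^ T.card := by
  obtain ⟨E1, h1, h2, h3, h4⟩ := exists_adj_family T z 13 E fun i hi F hF _ =>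
    exists_adj_pow F (z i) 13 (by norm_num) (hF (hz i hi))
  obtain ⟨E2, h5, h6, h7, h8⟩ := exists_adj_family (T ×ˢ (Finset.univ : Finset (Fin 13)))
    (fun j => y j.1 j.2) 2 E1 fun j hj F hF _ =>
    exists_adj_pow F (y j.1 j.2) 2 (by norm_num)
      (hy j.1 (Finset.mem_product.1 hj).1 j.2 F (h1.trans hF) (hF (h2 _ (Finset.mem_product.1 hj).1)))
  refine ⟨E2, h1.trans h5, ?_, h7, ?_⟩
  · intro i hi
    refine ⟨h5 (h2 i hi), fun l => ?_⟩
    exact h6 (i, l) (Finset.mem_product.2 ⟨hi, Finset.mem_univ _⟩)
  · rw [Finset.card_product, Finset.card_univ, Fintype.card_fin] at h8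
    calc _ ≤ _ := h8
      _ ≤ Module.finrank K E * 13 ^ T.card * 2 ^ (T.card * 13) := Nat.mul_le_mul_right _ h4
      _ = _ := by rw [mul_pow, ← pow_mul, mul_comm 13 T.card, mul_assoc]

theorem finiteDimensional_of_le {E F : IntermediateField K Ω} (h : E ≤ F)
    [FiniteDimensional K F] : FiniteDimensional K E :=
  FiniteDimensional.of_injective (inclusion h).toLinearMap (inclusion h).injective

/-- Degree of a subfield. -/
theorem finrank_le_of_le {E F : IntermediateField K Ω} (h : E ≤ F) [FiniteDimensional K F] :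
    Module.finrank K E ≤ Module.finrank K F := finrank_le_of_le_right h

/-- The crude bound of one step of the tower of a rational map. -/
theorem level_step (p q : K[X]) (d : ℕ) (hd : max p.natDegree q.natDegree = d) (hd0 : 0 < d)
    (hcop : IsCoprime p q) (T T' : Set Ω) (hT : T.Finite) [FiniteDimensional K (adjoin K T)]
    (hTT : ∀ y ∈ T', ∃ x ∈ T, aeval y p = x * aeval y q) :
    FiniteDimensional K (adjoin K T') ∧
    Module.finrank K (adjoin K T') ≤ Module.finrank K (adjoin K T) * (d ^ d) ^ T.ncard := by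
  classical
  set E := adjoin K T with hE
  have hTE : ∀ x ∈ T, x ∈ E := fun x hx => subset_adjoin K T hx
  -- the polynomial of a node
  let Q : E → Polynomial E := fun x => p.map (algebraMap K E) - C x * q.map (algebraMap K E)
  have hQ0 : ∀ x : E, Q x ≠ 0 := by
    intro x h0
    have h1 : p.map (algebraMap K E) = C x * q.map (algebraMap K E) := sub_eq_zero.1 h0
    have h2 : IsCoprime (p.map (algebraMap K E)) (q.map (algebraMap K E)) :=
      hcop.map (mapRingHom (algebraMap K E))
    have h3 : IsUnit (q.map (algebraMap K E)) := by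
      rw [h1] at h2
      exact (IsCoprime.of_mul_left_right h2).isUnit_of_dvd' dvd_rfl dvd_rfl
    have h4 : q.natDegree = 0 := by
      rw [← natDegree_map (algebraMap K E)]
      exact natDegree_eq_zero_of_isUnit h3
    have h5 : p.natDegree = 0 := by
      rw [← natDegree_map (algebraMap K E), h1]
      have h6 := natDegree_C_mul_le x (q.map (algebraMap K E))
      rw [natDegree_map, h4] at h6
      omega
    omega
  have hQd : ∀ x : E, (Q x).natDegree ≤ d := by
    intro x
    refine (natDegree_sub_le _ _).trans ?_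
    refine max_le ?_ ?_
    · rw [natDegree_map]
      omega
    · refine (natDegree_C_mul_le _ _).trans ?_
      rw [natDegree_map]
      omega
  have hQev : ∀ (x : E) (y : Ω), aeval y (Q x) = aeval y p - (x : Ω) * aeval y q := by
    intro x y
    simp only [Q, map_sub, map_mul, aeval_C, aeval_map_algebraMap]
    rfl
  -- the finite set of all roots, indexed by `T × Fin d`
  have hroots : ∀ x : E, ((Q x).map (algebraMap E Ω)).roots.toFinset.card ≤ d := by
    intro x
    refine (Multiset.toFinset_card_le _).trans ((card_roots' _).trans ?_)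
    rw [natDegree_map]
    exact hQd x
  have hfam : ∀ x : E, ∃ f : Fin d → Ω, ∀ y : Ω, aeval y (Q x) = 0 → ∃ i, f i = y := by
    intro x
    set R := ((Q x).map (algebraMap E Ω)).roots.toFinset with hR
    have h1 : ∀ y : Ω, aeval y (Q x) = 0 → y ∈ R := by
      intro y hy
      rw [hR, Multiset.mem_toFinset, mem_roots, IsRoot.def, eval_map_algebraMap]
      · exact hy
      · exact (Polynomial.map_ne_zero_iff (algebraMap E Ω).injective).2 (hQ0 x)
    have h2 : Fintype.card R ≤ Fintype.card (Fin d) := by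
      rw [Fintype.card_coe, Fintype.card_fin]
      exact hroots x
    obtain ⟨g⟩ := Function.Embedding.nonempty_of_card_le h2
    refine ⟨fun i => if h : ∃ r : R, g r = i then (Classical.choose h).1 else 0, fun y hy => ?_⟩
    refine ⟨g ⟨y, h1 y hy⟩, ?_⟩
    have h3 : ∃ r : R, g r = g ⟨y, h1 y hy⟩ := ⟨_, rfl⟩
    beta_reduce
    rw [dif_pos h3]
    have h4 := g.injective (Classical.choose_spec h3)
    rw [h4]
  choose f hf using hfam
  -- adjoin all roots
  let g : T × Fin d → Ω := fun j =>
    if aeval (f ⟨j.1.1, hTE _ j.1.2⟩ j.2) (Q ⟨j.1.1, hTE _ j.1.2⟩) = 0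
      then f ⟨j.1.1, hTE _ j.1.2⟩ j.2 else 0
  let _ : Fintype T := hT.fintype
  obtain ⟨E1, h1, h2, h3, h4⟩ := exists_adj_family (Finset.univ : Finset (T × Fin d)) g d E
    (by
      intro j _ F hF _
      by_cases h0 : aeval (f ⟨j.1.1, hTE _ j.1.2⟩ j.2) (Q ⟨j.1.1, hTE _ j.1.2⟩) = 0
      · have hg : g j = f ⟨j.1.1, hTE _ j.1.2⟩ j.2 := by
          simp only [g, if_pos h0]
        rw [hg]
        refine exists_adj F _ d ((Q ⟨j.1.1, hTE _ j.1.2⟩).map (inclusion hF).toRingHom) ?_ ?_ ?_
        · exact (Polynomial.map_ne_zero_iff (inclusion hF).injective).2 (hQ0 _)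
        · exact natDegree_map_le.trans (hQd _)
        · rw [aeval_def, eval₂_map]
          exact h0
      · have hg : g j = 0 := by
          simp only [g, if_neg h0]
        rw [hg]
        refine ⟨F, le_rfl, F.zero_mem, inferInstance, ?_⟩
        exact Nat.le_mul_of_pos_right _ hd0)
  have h5 : adjoin K T' ≤ E1 := by
    rw [adjoin_le_iff]
    intro y hy
    obtain ⟨x, hx, hxy⟩ := hTT y hy
    have h6 : aeval y (Q ⟨x, hTE x hx⟩) = 0 := by
      rw [hQev, hxy, sub_self]
    obtain ⟨i, hi⟩ := hf _ y h6
    have h7 := h2 (⟨x, hx⟩, i) (Finset.mem_univ _)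
    have h8 : g (⟨x, hx⟩, i) = y := by
      simp only [g]
      rw [if_pos (by rw [hi]; exact h6), hi]
    rw [h8] at h7
    exact h7
  have h9 : FiniteDimensional K (adjoin K T') := finiteDimensional_of_le h5
  refine ⟨h9, ?_⟩
  refine (finrank_le_of_le h5).trans (h4.trans (le_of_eq ?_))
  rw [Finset.card_univ, Fintype.card_prod, Fintype.card_fin, ← Nat.card_eq_fintype_card,
    Nat.card_coe_set_eq, ← pow_mul, mul_comm d]

theorem zpow_fix {G : Type*} {A : Type*} [Group G] [MulAction G A] (g : G) (y : A)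
    (h : g • y = y) (k : ℤ) : (g ^ k) • y = y := by
  have h1 : g ∈ MulAction.stabilizer G y := h
  exact (MulAction.stabilizer G y).zpow_mem h1 k

/-- (LO): distinct actions on `T` of elements fixing `S` bound the degree from below. -/
theorem lo_bound {ι : Type*} (σ : ι → (Ω ≃ₐ[K] Ω)) (S T : Set Ω)
    (hfix : ∀ i, ∀ x ∈ S, σ i x = x) (hinj : ∀ i j, (∀ t ∈ T, σ i t = σ j t) → i = j)
    (hST : ∀ x ∈ S, x ∈ adjoin K T) [FiniteDimensional K (adjoin K T)] :
    Module.finrank K (adjoin K S) * Nat.card ι ≤ Module.finrank K (adjoin K T) := by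
  set E := adjoin K S with hE
  have hle : E ≤ adjoin K T := adjoin_le_iff.2 hST
  set F : IntermediateField E Ω := extendScalars hle with hF
  have hfd : FiniteDimensional K F := inferInstanceAs (FiniteDimensional K (adjoin K T))
  have hfd2 : FiniteDimensional E F := FiniteDimensional.right K E F
  have hEfix : ∀ i, ∀ x ∈ E, σ i x = x := by
    intro i x hx
    have h1 : E ≤ fixedField (Subgroup.zpowers (σ i)) := by
      rw [hE, adjoin_le_iff]
      intro y hy
      rw [SetLike.mem_coe, mem_fixedField_iff]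
      intro g hg
      obtain ⟨k, rfl⟩ := Subgroup.mem_zpowers_iff.1 hg
      exact zpow_fix (σ i) y (hfix i y hy) k
    have h2 := (mem_fixedField_iff _ _).1 (h1 hx) (σ i) (Subgroup.mem_zpowers _)
    exact h2
  let τ : ι → (F →ₐ[E] Ω) := fun i =>
    { (σ i).toAlgHom.toRingHom.comp F.val.toRingHom with
      commutes' := fun e => hEfix i e.1 e.2 }
  have hτ : Function.Injective τ := by
    intro i j hij
    refine hinj i j fun t ht => ?_
    have h1 : t ∈ F := subset_adjoin K T ht
    exact DFunLike.congr_fun hij (⟨t, h1⟩ : F)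
  have h1 : Nat.card ι ≤ Module.finrank E F := by
    have h2 := card_algHom_le_finrank E F Ω
    exact (Nat.card_le_card_of_injective τ hτ).trans h2
  calc Module.finrank K E * Nat.card ι ≤ Module.finrank K E * Module.finrank E F :=
        Nat.mul_le_mul_left _ h1
    _ = Module.finrank K F := Module.finrank_mul_finrank K E F
    _ = Module.finrank K (adjoin K T) := rfl

/-- An element fixed by all automorphisms fixing `E` lies in `E`. -/
theorem mem_of_fixed [IsGalois K Ω] (E : IntermediateField K Ω) (x : Ω)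
    (h : ∀ g : Ω ≃ₐ[K] Ω, (∀ e ∈ E, g e = e) → g x = x) : x ∈ E := by
  rw [← InfiniteGalois.fixedField_fixingSubgroup E]
  rw [mem_fixedField_iff]
  intro g hg
  exact h g fun e he => (mem_fixingSubgroup_iff E g).1 hg e he

end Pool.Agent.Arb
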