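import Pool.Agent.Lib.MP_07117b_nt_h29.Deg1
import Pool.Agent.Lib.MP_07117b_nt_h62.Galois

/-! MP_07117b_nt, arboreal Galois groups: row D2 (finiteness, monotonicity and crude bounds of the
level fields). -/

namespace Pool.Agent.Arb

open Cst Polynomial

theorem SS_finite {F : Type*} [Field F] [CharZero F] [IsAlgClosed F] (c : Cst F) (n : ℕ) :
    (c.SS n).Finite ∧ (c.SS n).ncard ≤ 2 * 52 ^ n := by
  have hfin : (c.MS n).Finite := Set.toFinite _
  have h1 : c.SS n = c.MS n ∪ (fun v => v⁻¹) '' (c.MS n) := by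
    ext v
    simp only [Cst.SS, Set.mem_ofPred_eq, Set.mem_union, Set.mem_image]
    constructor
    · rintro (h | h)
      · exact Or.inl h
      · exact Or.inr ⟨v⁻¹, h, inv_inv v⟩
    · rintro (h | ⟨w, hw, rfl⟩)
      · exact Or.inl h
      · right
        rwa [inv_inv]
  have hcard : (c.MS n).ncard = 52 ^ n := by
    rw [← Nat.card_coe_set_eq]
    exact card_MS c n
  refine ⟨?_, ?_⟩
  · rw [h1]
    exact hfin.union (hfin.image _)
  · rw [h1]
    refine (Set.ncard_union_le _ _).trans ?_
    have h2 := Set.ncard_image_le (f := fun v : F => v⁻¹) hfin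
    rw [hcard] at h2 ⊢
    omega

theorem NS_finite' {F : Type*} [Field F] [CharZero F] [IsAlgClosed F] (c : Cst F) (n : ℕ) :
    (c.NS n).Finite ∧ (c.NS n).ncard ≤ 2 * 52 ^ n := by
  obtain ⟨hf, hc⟩ := SS_finite c n
  have h1 : c.NS n = (fun v => c.X (c.kap n v)) '' c.SS n := by
    ext x
    simp only [Cst.NS, Set.mem_ofPred_eq, Set.mem_image]
    constructor
    · rintro ⟨v, hv, rfl⟩
      exact ⟨v, hv, rfl⟩
    · rintro ⟨v, hv, rfl⟩
      exact ⟨v, hv, rfl⟩
  rw [h1]
  exact ⟨hf.image _, (Set.ncard_image_le hf).trans hc⟩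

/-- Every finite value is taken by a rational map of positive degree. -/
theorem ratMap_surj {F : Type*} [Field F] [IsAlgClosed F] (p q : F[X]) (hcop : IsCoprime p q)
    (hdeg : 0 < max p.natDegree q.natDegree) (y : F) :
    ∃ β : OnePoint F, ratMap p q β = (y : OnePoint F) := by
  set d := max p.natDegree q.natDegree with hd
  by_cases h0 : (p - C y * q).degree = 0
  · -- the value at infinity
    have hdeg0 : (p - C y * q).natDegree = 0 := natDegree_eq_zero_iff_degree_le_zero.2 h0.le
    have h1 : (p - C y * q).coeff d = 0 := coeff_eq_zero_of_natDegree_lt (by omega)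
    rw [coeff_sub, coeff_C_mul, sub_eq_zero] at h1
    have h2 : q.coeff d ≠ 0 := by
      intro h3
      rw [h3, mul_zero] at h1
      rcases max_choice p.natDegree q.natDegree with h4 | h4
      · rw [hd, h4] at h1
        have h5 : p = 0 := leadingCoeff_eq_zero.1 h1
        have h6 : p.natDegree = 0 := by rw [h5, natDegree_zero]
        omega
      · rw [hd, h4] at h3
        have h5 : q = 0 := leadingCoeff_eq_zero.1 h3
        have h6 : q.natDegree = 0 := by rw [h5, natDegree_zero]
        omega
    refine ⟨OnePoint.infty, ?_⟩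
    unfold ratMap
    rw [OnePoint.elim_infty, ← hd, if_neg h2, h1, mul_div_cancel_right₀ _ h2]
  · obtain ⟨x, hx⟩ := IsAlgClosed.exists_root (p - C y * q) h0
    rw [IsRoot.def, eval_sub, eval_mul, eval_C, sub_eq_zero] at hx
    have h2 : q.eval x ≠ 0 := by
      intro h3
      rw [h3, mul_zero] at hx
      obtain ⟨u, v, huv⟩ := hcop
      have h4 := congrArg (eval x) huv
      rw [eval_add, eval_mul, eval_mul, hx, h3, eval_one] at h4
      simp at h4
    refine ⟨(x : OnePoint F), ?_⟩
    unfold ratMap
    rw [OnePoint.elim_some, if_neg h2, hx, mul_div_cancel_right₀ _ h2]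

variable {K : Type*} [Field K] [CharZero K] (c0 : Cst K)

/-- row D2: finiteness and size of `N_n` -/
theorem NS_finite (n : ℕ) : ((c0.map (algebraMap K (AlgebraicClosure K))).NS n).Finite :=
  (NS_finite' _ n).1

instance fd_adjoin_of_finite {S : Set (AlgebraicClosure K)} [hS : Finite S] :
    FiniteDimensional K (IntermediateField.adjoin K S) :=
  IntermediateField.finiteDimensional_adjoin fun x _ => Algebra.IsIntegral.isIntegral x

theorem fd_NS (n : ℕ) : FiniteDimensional K
    (IntermediateField.adjoin K ((c0.map (algebraMap K (AlgebraicClosure K))).NS n)) := by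
  have h1 : Finite ((c0.map (algebraMap K (AlgebraicClosure K))).NS n) := NS_finite c0 n
  exact fd_adjoin_of_finite

/-- the value of `f` at a finite point of level `n + 1` -/
theorem value_NS (n : ℕ) {x : AlgebraicClosure K}
    (hx : x ∈ (c0.map (algebraMap K (AlgebraicClosure K))).NS (n + 1)) :
    ∃ y ∈ (c0.map (algebraMap K (AlgebraicClosure K))).NS n,
      aeval x c0.qq ≠ 0 ∧ aeval x c0.pp / aeval x c0.qq = y := by
  obtain ⟨y, hy, hxy⟩ := (step_NS c0 n (x : OnePoint (AlgebraicClosure K))).2 ⟨x, hx, rfl⟩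
  refine ⟨y, hy, ?_⟩
  unfold ratMap at hxy
  rw [OnePoint.elim_some] at hxy
  by_cases h0 : eval x (Polynomial.map (algebraMap K (AlgebraicClosure K)) c0.qq) = 0
  · rw [if_pos h0] at hxy
    exact absurd hxy.symm (OnePoint.coe_ne_infty _)
  · rw [if_neg h0] at hxy
    have h1 := OnePoint.coe_injective hxy
    rw [eval_map_algebraMap] at h0
    rw [eval_map_algebraMap, eval_map_algebraMap] at h1
    exact ⟨h0, h1⟩

/-- row D2: `K_n ≤ K_{n+1}` (`N_n = f(N_{n+1})`) -/
theorem level_mono (n : ℕ) :
    IntermediateField.adjoin K ((c0.map (algebraMap K (AlgebraicClosure K))).NS n) ≤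
    IntermediateField.adjoin K ((c0.map (algebraMap K (AlgebraicClosure K))).NS (n + 1)) := by
  rw [IntermediateField.adjoin_le_iff]
  intro y hy
  have hinj := (algebraMap K (AlgebraicClosure K)).injective
  have hdeg : 0 < max (c0.pp.map (algebraMap K (AlgebraicClosure K))).natDegree
      (c0.qq.map (algebraMap K (AlgebraicClosure K))).natDegree := by
    rw [natDegree_map, natDegree_map, natDegree_pq]
    norm_num
  obtain ⟨β, hβ⟩ := ratMap_surj _ _
    ((coprime_pq c0).map (mapRingHom (algebraMap K (AlgebraicClosure K)))) hdeg y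
  obtain ⟨x, hx, rfl⟩ := (step_NS c0 n β).1 ⟨y, hy, hβ⟩
  obtain ⟨y', hy', h1, h2⟩ := value_NS c0 n hx
  have h3 : y' = y := by
    have h4 : ratMap (c0.pp.map (algebraMap K (AlgebraicClosure K)))
        (c0.qq.map (algebraMap K (AlgebraicClosure K))) (x : OnePoint (AlgebraicClosure K)) =
        ((y' : AlgebraicClosure K) : OnePoint (AlgebraicClosure K)) := by
      unfold ratMap
      rw [OnePoint.elim_some, if_neg (by rw [eval_map_algebraMap]; exact h1),
        eval_map_algebraMap, eval_map_algebraMap, h2]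
    exact OnePoint.coe_injective (h4.symm.trans hβ)
  rw [← h3, ← h2]
  have hxm : x ∈ IntermediateField.adjoin K
      ((c0.map (algebraMap K (AlgebraicClosure K))).NS (n + 1)) :=
    IntermediateField.subset_adjoin K _ hx
  have h5 : ∀ P : K[X], aeval x P ∈ IntermediateField.adjoin K
      ((c0.map (algebraMap K (AlgebraicClosure K))).NS (n + 1)) := by
    intro P
    have h6 : aeval x P = ((aeval (⟨x, hxm⟩ : IntermediateField.adjoin K
      ((c0.map (algebraMap K (AlgebraicClosure K))).NS (n + 1))) P :
        IntermediateField.adjoin K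
      ((c0.map (algebraMap K (AlgebraicClosure K))).NS (n + 1))) : AlgebraicClosure K) := by
      rw [← IntermediateField.coe_val, ← aeval_algHom_apply]
      rfl
    rw [h6]
    exact Subtype.coe_prop _
  exact div_mem (h5 _) (h5 _)

/-- row D2: general upper bound -/
theorem deg_general : ∃ B : ℕ, ∀ n : ℕ,
    Module.finrank K
      (IntermediateField.adjoin K ((c0.map (algebraMap K (AlgebraicClosure K))).NS (n + 1))) ≤
    Module.finrank K
      (IntermediateField.adjoin K ((c0.map (algebraMap K (AlgebraicClosure K))).NS n)) *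
        B ^ (52 ^ n) := by
  refine ⟨(52 ^ 52) ^ 2, fun n => ?_⟩
  have hfd := fd_NS c0 n
  have h1 := level_step c0.pp c0.qq 52 (natDegree_pq c0) (by norm_num) (coprime_pq c0)
    ((c0.map (algebraMap K (AlgebraicClosure K))).NS n)
    ((c0.map (algebraMap K (AlgebraicClosure K))).NS (n + 1)) (NS_finite c0 n) (by
      intro x hx
      obtain ⟨y, hy, h2, h3⟩ := value_NS c0 n hx
      refine ⟨y, hy, ?_⟩
      rw [← h3, div_mul_cancel₀ _ h2])
  refine h1.2.trans (Nat.mul_le_mul_left _ ?_)
  rw [← pow_mul (52 ^ 52) 2]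
  exact Nat.pow_le_pow_right (by positivity) (NS_finite' _ n).2

/-- row D2: `K_0 = K` (`X m = 1 = X m⁻¹`) -/
theorem deg_zero : Module.finrank K
      (IntermediateField.adjoin K ((c0.map (algebraMap K (AlgebraicClosure K))).NS 0)) = 1 := by
  set c := c0.map (algebraMap K (AlgebraicClosure K)) with hc
  have hm2 : c.m ^ 2 + 2 * c.a * c.m + 1 = 0 := by
    unfold Cst.m
    linear_combination 4 * c.hω - c.ha
  have hm0 : c.m ≠ 0 := by
    intro h0
    rw [h0] at hm2
    norm_num at hm2
  have ham : c.a * c.m + 1 ≠ 0 := by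
    intro h0
    have h1 : c.m ^ 2 = 1 := by linear_combination hm2 - 2 * h0
    have h2 : (c.a * c.m) ^ 2 = 1 := by
      have h3 : c.a * c.m = -1 := by linear_combination h0
      rw [h3]
      norm_num
    rw [mul_pow, c.ha, h1] at h2
    norm_num at h2
  have hX : c.X c.m = 1 := by
    unfold Cst.X
    rw [div_eq_one_iff_eq ham]
    linear_combination -hm2
  rw [IntermediateField.finrank_adjoin_eq_one_iff]
  rintro x ⟨v, hv, rfl⟩
  have hkap : c.kap 0 v = v := by
    simp [Cst.kap]
  rw [hkap]
  have h1 : c.X v = 1 := by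
    rcases hv with h | h
    · have h2 : v = c.m := h
      rw [h2, hX]
    · have h2 : v⁻¹ = c.m := h
      have h3 : v = c.m⁻¹ := by rw [← h2, inv_inv]
      rw [h3, X_inv hm0, hX, inv_one]
  rw [h1]
  exact one_mem _

/-- row D2 -/
theorem deg_pos (n : ℕ) : 0 < Module.finrank K
      (IntermediateField.adjoin K ((c0.map (algebraMap K (AlgebraicClosure K))).NS n)) := by
  have hfd := fd_NS c0 n
  exact Module.finrank_pos

end Pool.Agent.Arb
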