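import Pool.Agent.Lib.MP_07117b_nt_h63.DegOdd
import Pool.Agent.Lib.MP_07117b_nt_h62.D2
import Pool.Agent.Lib.MP_07117b_nt_h62.Step1

/-! MP_07117b_nt, arboreal Galois groups: row D4 (lower bound for even levels). -/

namespace Pool.Agent.Arb

open Cst Polynomial

variable {K : Type*} [Field K] [CharZero K] (c0 : Cst K)

theorem adjoin_NS_le {n : ℕ} (hn : Even n) :
    IntermediateField.adjoin K ((c0.map (algebraMap K (AlgebraicClosure K))).NS n) ≤
    IntermediateField.adjoin K ((c0.map (algebraMap K (AlgebraicClosure K))).LS n) := by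
  rw [IntermediateField.adjoin_le_iff]
  rintro x ⟨v, hv, rfl⟩
  have hkap : (c0.map (algebraMap K (AlgebraicClosure K))).kap n v = v := by
    unfold Cst.kap
    rw [if_pos hn]
  rw [hkap]
  have hMS : ∀ u ∈ (c0.map (algebraMap K (AlgebraicClosure K))).MS n,
      u ∈ IntermediateField.adjoin K ((c0.map (algebraMap K (AlgebraicClosure K))).LS n) := by
    intro u hu
    obtain ⟨z, hz⟩ := (fib_p (F := AlgebraicClosure K) c0 n).surj ⟨u, hu⟩
    have h1 : (z : AlgebraicClosure K) ^ 13 = u := congrArg Subtype.val hz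
    rw [← h1]
    exact pow_mem (IntermediateField.subset_adjoin K _ z.2) 13
  have hvm : v ∈ IntermediateField.adjoin K
      ((c0.map (algebraMap K (AlgebraicClosure K))).LS n) := by
    rcases hv with h | h
    · exact hMS v h
    · have h1 := inv_mem (hMS _ h)
      rwa [inv_inv] at h1
  have ham : (c0.map (algebraMap K (AlgebraicClosure K))).a ∈ IntermediateField.adjoin K
      ((c0.map (algebraMap K (AlgebraicClosure K))).LS n) :=
    (IntermediateField.adjoin K
      ((c0.map (algebraMap K (AlgebraicClosure K))).LS n)).algebraMap_mem c0.a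
  unfold Cst.X
  exact div_mem (neg_mem (mul_mem hvm (add_mem hvm ham))) (add_mem (mul_mem ham hvm) (one_mem _))

theorem LS_mem_adjoin_MS (n : ℕ) {z : AlgebraicClosure K}
    (hz : z ∈ (c0.map (algebraMap K (AlgebraicClosure K))).LS n) :
    z ∈ IntermediateField.adjoin K
      ((c0.map (algebraMap K (AlgebraicClosure K))).MS (n + 1)) := by
  obtain ⟨w, hw⟩ := (fib_q (F := AlgebraicClosure K) c0 n).surj ⟨z, hz⟩
  have h1 : (c0.map (algebraMap K (AlgebraicClosure K))).P (w : AlgebraicClosure K) = z :=
    congrArg Subtype.val hw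
  have hwm : (w : AlgebraicClosure K) ∈ IntermediateField.adjoin K
      ((c0.map (algebraMap K (AlgebraicClosure K))).MS (n + 1)) :=
    IntermediateField.subset_adjoin K _ w.2
  have ham : (c0.map (algebraMap K (AlgebraicClosure K))).a ∈ IntermediateField.adjoin K
      ((c0.map (algebraMap K (AlgebraicClosure K))).MS (n + 1)) :=
    (IntermediateField.adjoin K
      ((c0.map (algebraMap K (AlgebraicClosure K))).MS (n + 1))).algebraMap_mem c0.a
  have h2m : (2 : AlgebraicClosure K) ∈ IntermediateField.adjoin K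
      ((c0.map (algebraMap K (AlgebraicClosure K))).MS (n + 1)) := ofNat_mem _ 2
  rw [← h1]
  unfold Cst.P
  exact div_mem (mul_mem hwm (sub_mem (pow_mem hwm 3) (mul_mem h2m ham)))
    (sub_mem (one_mem _) (mul_mem (mul_mem h2m ham) (pow_mem hwm 3)))

/-- row D4: lower bound for even `n` -/
theorem deg_even {n : ℕ} (hn : Even n)
    (hcard : 4 ^ (12 * Nat.card ((c0.map (algebraMap K (AlgebraicClosure K))).MS n)) ≤
      Nat.card (Gam (AlgebraicClosure K ≃ₐ[K] AlgebraicClosure K) (A := V4)
        (qm (c0.map (algebraMap K (AlgebraicClosure K))) n))) :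
    Module.finrank K
      (IntermediateField.adjoin K ((c0.map (algebraMap K (AlgebraicClosure K))).NS n)) *
        (2 ^ 24) ^ (52 ^ n) ≤
    Module.finrank K
      (IntermediateField.adjoin K ((c0.map (algebraMap K (AlgebraicClosure K))).NS (n + 1))) := by
  have hfd1 : FiniteDimensional K (IntermediateField.adjoin K
      ((c0.map (algebraMap K (AlgebraicClosure K))).LS n)) := fd_adjoin_of_finite
  have hfd2 : FiniteDimensional K (IntermediateField.adjoin K
      ((c0.map (algebraMap K (AlgebraicClosure K))).MS (n + 1))) := fd_adjoin_of_finite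
  have hfd3 := fd_NS c0 (n + 1)
  have h1 : Module.finrank K
      (IntermediateField.adjoin K ((c0.map (algebraMap K (AlgebraicClosure K))).NS n)) ≤
      Module.finrank K
      (IntermediateField.adjoin K ((c0.map (algebraMap K (AlgebraicClosure K))).LS n)) :=
    finrank_le_of_le (adjoin_NS_le c0 hn)
  have h2 : Module.finrank K
      (IntermediateField.adjoin K ((c0.map (algebraMap K (AlgebraicClosure K))).MS (n + 1))) ≤
      Module.finrank K
      (IntermediateField.adjoin K ((c0.map (algebraMap K (AlgebraicClosure K))).NS (n + 1))) := by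
    refine finrank_le_of_le ?_
    rw [IntermediateField.adjoin_le_iff]
    intro v hv
    exact MS_mem_level c0 hn.add_one hv
  have hq := fib_q (F := AlgebraicClosure K) c0 n
  have h3 : Module.finrank K
      (IntermediateField.adjoin K ((c0.map (algebraMap K (AlgebraicClosure K))).LS n)) *
      Nat.card (Gam (AlgebraicClosure K ≃ₐ[K] AlgebraicClosure K) (A := V4)
        (qm (c0.map (algebraMap K (AlgebraicClosure K))) n)) ≤
      Module.finrank K
      (IntermediateField.adjoin K ((c0.map (algebraMap K (AlgebraicClosure K))).MS (n + 1))) := by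
    have hex : ∀ δ : Gam (AlgebraicClosure K ≃ₐ[K] AlgebraicClosure K) (A := V4)
        (qm (c0.map (algebraMap K (AlgebraicClosure K))) n),
        ∃ g : AlgebraicClosure K ≃ₐ[K] AlgebraicClosure K,
          ∀ x : (c0.map (algebraMap K (AlgebraicClosure K))).MS (n + 1),
            g • x = δ.1 (qm (c0.map (algebraMap K (AlgebraicClosure K))) n x) +ᵥ x := fun δ => δ.2
    choose σ hσ using hex
    refine lo_bound σ _ _ ?_ ?_ (fun z hz => LS_mem_adjoin_MS c0 n hz)
    · intro δ z hz
      obtain ⟨x, hx⟩ := hq.surj ⟨z, hz⟩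
      have h4 : σ δ • (⟨z, hz⟩ : (c0.map (algebraMap K (AlgebraicClosure K))).LS n) =
          ⟨z, hz⟩ := by
        rw [← hx, ← hq.equiv, hσ δ x, hq.fib]
      exact congrArg Subtype.val h4
    · intro δ δ' h
      refine Subtype.ext (funext fun z => ?_)
      obtain ⟨x, hx⟩ := hq.surj z
      have h5 : σ δ • x = σ δ' • x := Subtype.ext (h x.1 x.2)
      rw [hσ δ, hσ δ', hx] at h5
      exact hq.vadd_inj h5
  have h6 : (2 ^ 24) ^ (52 ^ n) ≤ Nat.card (Gam (AlgebraicClosure K ≃ₐ[K] AlgebraicClosure K)
      (A := V4) (qm (c0.map (algebraMap K (AlgebraicClosure K))) n)) := by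
    refine le_trans (le_of_eq ?_) hcard
    rw [card_MS, pow_mul]
    norm_num
  exact (Nat.mul_le_mul h1 h6).trans (h3.trans h2)

end Pool.Agent.Arb
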