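import Mathlib

/-! MP_07117b_nt, arboreal Galois groups: the final limit argument. -/

namespace Pool.Agent.Arb

open Filter Topology

theorem geom52 (n : ℕ) : ∑ i ∈ Finset.range n, (52 : ℝ) ^ i = (52 ^ n - 1) / 51 := by
  rw [geom_sum_eq (by norm_num)]
  norm_num

/-- If the increments of `a` are at most `C1 * 52^n` for odd `n` and at least `C2 * 52^n` for even
`n`, with `C1 < C2`, then the normalised sequence has no limit. -/
theorem limit_gap (a r : ℕ → ℝ) (l C1 C2 : ℝ) (hl : 0 < l) (hC : C1 < C2)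
    (hr : ∀ n, r n = a n / (l * ∑ i ∈ Finset.range n, (52 : ℝ) ^ i))
    (c : ℝ) (hb : ∀ n, 0 ≤ r n ∧ r n ≤ c)
    (h1 : ∀ n, Odd n → a (n + 1) - a n ≤ C1 * 52 ^ n)
    (h2 : ∀ n, Even n → 1 ≤ n → C2 * 52 ^ n ≤ a (n + 1) - a n) :
    liminf r atTop < limsup r atTop := by
  by_contra hcon
  have hcon' := not_lt.1 hcon
  have hbd1 : IsBoundedUnder (· ≤ ·) atTop r := isBoundedUnder_of ⟨c, fun n => (hb n).2⟩
  have hbd2 : IsBoundedUnder (· ≥ ·) atTop r := isBoundedUnder_of ⟨0, fun n => (hb n).1⟩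
  have heq : liminf r atTop = limsup r atTop := le_antisymm (liminf_le_limsup hbd1 hbd2) hcon'
  have hlim : Tendsto r atTop (𝓝 (limsup r atTop)) :=
    tendsto_of_liminf_eq_limsup heq rfl hbd1 hbd2
  set x := limsup r atTop with hx
  have hpow : Tendsto (fun n : ℕ => (1 - ((1 : ℝ) / 52) ^ n)) atTop (𝓝 (1 - 0)) :=
    tendsto_const_nhds.sub (tendsto_pow_atTop_nhds_zero_of_lt_one (by norm_num) (by norm_num))
  have hprod : Tendsto (fun n => r n * (l / 51) * (1 - ((1 : ℝ) / 52) ^ n)) atTop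
      (𝓝 (x * (l / 51) * (1 - 0))) := (hlim.mul_const _).mul hpow
  rw [sub_zero, mul_one] at hprod
  have ha : Tendsto (fun n => a n / 52 ^ n) atTop (𝓝 (x * (l / 51))) := by
    refine hprod.congr' ?_
    filter_upwards [eventually_ge_atTop 1] with n hn
    have h52 : (1 : ℝ) < 52 ^ n := one_lt_pow₀ (by norm_num) (by omega)
    have hpos : (0 : ℝ) < 52 ^ n := by linarith
    rw [hr n, geom52]
    have h3 : (52 : ℝ) ^ n - 1 ≠ 0 := by linarith
    have h4 : (1 - ((1 : ℝ) / 52) ^ n) = (52 ^ n - 1) / 52 ^ n := by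
      rw [div_pow, one_pow, sub_div, div_self hpos.ne']
    rw [h4]
    field_simp
  have ha1 : Tendsto (fun n => a (n + 1) / 52 ^ (n + 1)) atTop (𝓝 (x * (l / 51))) :=
    ha.comp (tendsto_add_atTop_nat 1)
  have hd : Tendsto (fun n => 52 * (a (n + 1) / 52 ^ (n + 1)) - a n / 52 ^ n) atTop
      (𝓝 (52 * (x * (l / 51)) - x * (l / 51))) := (ha1.const_mul _).sub ha
  have hd' : ∀ n, 52 * (a (n + 1) / 52 ^ (n + 1)) - a n / 52 ^ n =
      (a (n + 1) - a n) / 52 ^ n := by
    intro n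
    have hpos : (0 : ℝ) < 52 ^ n := by positivity
    rw [pow_succ]
    field_simp
  have hodd : Tendsto (fun k : ℕ => 2 * k + 1) atTop atTop :=
    tendsto_atTop_mono (fun k => (by omega : k ≤ 2 * k + 1)) tendsto_id
  have heven : Tendsto (fun k : ℕ => 2 * k + 2) atTop atTop :=
    tendsto_atTop_mono (fun k => (by omega : k ≤ 2 * k + 2)) tendsto_id
  have hle : 52 * (x * (l / 51)) - x * (l / 51) ≤ C1 := by
    refine le_of_tendsto' (hd.comp hodd) fun k => ?_
    simp only [Function.comp]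
    rw [hd', div_le_iff₀ (by positivity)]
    exact h1 _ ⟨k, rfl⟩
  have hge : C2 ≤ 52 * (x * (l / 51)) - x * (l / 51) := by
    refine ge_of_tendsto' (hd.comp heven) fun k => ?_
    simp only [Function.comp]
    rw [hd', le_div_iff₀ (by positivity)]
    exact h2 _ ⟨k + 1, by ring⟩ (by omega)
  linarith

/-- Boundedness of the ratios from bounded increments. -/
theorem ratio_bounded (a r : ℕ → ℝ) (l C : ℝ) (hl : 0 < l) (hC : 0 ≤ C)
    (hr : ∀ n, r n = a n / (l * ∑ i ∈ Finset.range n, (52 : ℝ) ^ i))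
    (h0 : a 0 ≤ 0) (hpos : ∀ n, 0 ≤ a n) (h1 : ∀ n, a (n + 1) - a n ≤ C * 52 ^ n) (n : ℕ) :
    0 ≤ r n ∧ r n ≤ C / l := by
  have hS : ∀ n, 0 ≤ ∑ i ∈ Finset.range n, (52 : ℝ) ^ i := fun n =>
    Finset.sum_nonneg fun i _ => by positivity
  have hup : ∀ n, a n ≤ C * ∑ i ∈ Finset.range n, (52 : ℝ) ^ i := by
    intro n
    induction n with
    | zero => simpa using h0
    | succ n ih =>
      rw [Finset.sum_range_succ, mul_add]
      have := h1 n
      linarith
  rw [hr n]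
  refine ⟨div_nonneg (hpos n) (mul_nonneg hl.le (hS n)), ?_⟩
  rcases (hS n).eq_or_lt with h | h
  · rw [← h, mul_zero, div_zero]
    exact div_nonneg hC hl.le
  · rw [div_le_div_iff₀ (mul_pos hl h) hl]
    have := mul_le_mul_of_nonneg_left (hup n) hl.le
    nlinarith [this]

end Pool.Agent.Arb
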