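import Pool.Agent.Lib.MP_07117b_nt_h64.Stmt
import Pool.Agent.Lib.MP_07117b_nt_h62.Limit

/-! MP_07117b_nt, arboreal Galois groups: from field degrees to the final statement. -/

namespace Pool.Agent.Arb

open Polynomial Filter

/-- The final statement follows from the degree estimates of the level fields. -/
theorem final_of_degrees (K : Type) [Field K] [NumberField K] (p q : K[X]) (α : OnePoint K)
    (hcop : IsCoprime p q) (hdeg : max p.natDegree q.natDegree = 52)
    (d : ℕ → ℕ) (hd : ∀ n, d n = Module.finrank K (levelField p q α n))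
    (hpos : ∀ n, 0 < d n) (h0 : d 0 = 1) (B : ℕ) (hB : ∀ n, d (n + 1) ≤ d n * B ^ (52 ^ n))
    (h1 : ∀ n, Odd n → d (n + 1) ≤ d n * (13 * 2 ^ 13) ^ (52 ^ n))
    (h2 : ∀ n, Even n → 1 ≤ n → d n * (2 ^ 24) ^ (52 ^ n) ≤ d (n + 1)) : Final := by
  have hl : 0 < Real.log (Nat.factorial 52 : ℝ) := by
    refine Real.log_pos ?_
    have h3 : 2 ≤ Nat.factorial 52 := by
      calc 2 ≤ Nat.factorial 2 := by decide
        _ ≤ Nat.factorial 52 := Nat.factorial_le (by norm_num)
    have h4 : (2 : ℝ) ≤ (Nat.factorial 52 : ℝ) := by exact_mod_cast h3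
    linarith
  have hr : ∀ n, ratio p q α n = Real.log (d n : ℝ) /
      (Real.log (Nat.factorial 52 : ℝ) * ∑ i ∈ Finset.range n, (52 : ℝ) ^ i) := by
    intro n
    unfold ratio
    rw [hdeg, ← hd]
    congr 1
    rw [Nat.cast_pow, Real.log_pow, mul_comm]
    push_cast
    rfl
  have hBpos : 0 < B := by
    rcases Nat.eq_zero_or_pos B with h | h
    · have h3 := hB 0
      rw [h, pow_zero, pow_one, mul_zero] at h3
      have := hpos 1
      simp only [zero_add] at h3
      omega
    · exact h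
  have hlog : ∀ (n c : ℕ), 0 < c → d (n + 1) ≤ d n * c ^ (52 ^ n) →
      Real.log (d (n + 1)) - Real.log (d n) ≤ Real.log c * 52 ^ n := by
    intro n c hc h
    have h3 : (0 : ℝ) < d n := by exact_mod_cast hpos n
    have h4 : (0 : ℝ) < d (n + 1) := by exact_mod_cast hpos (n + 1)
    have h5 : (0 : ℝ) < c := by exact_mod_cast hc
    have h6 : (d (n + 1) : ℝ) ≤ d n * c ^ (52 ^ n) := by exact_mod_cast h
    have h7 := Real.log_le_log h4 h6
    rw [Real.log_mul h3.ne' (by positivity), Real.log_pow] at h7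
    push_cast at h7
    linarith
  have hlog2 : ∀ (n c : ℕ), 0 < c → d n * c ^ (52 ^ n) ≤ d (n + 1) →
      Real.log c * 52 ^ n ≤ Real.log (d (n + 1)) - Real.log (d n) := by
    intro n c hc h
    have h3 : (0 : ℝ) < d n := by exact_mod_cast hpos n
    have h4 : (0 : ℝ) < d (n + 1) := by exact_mod_cast hpos (n + 1)
    have h5 : (0 : ℝ) < c := by exact_mod_cast hc
    have h6 : (d n * c ^ (52 ^ n) : ℝ) ≤ d (n + 1) := by exact_mod_cast h
    have h7 := Real.log_le_log (by positivity) h6
    rw [Real.log_mul h3.ne' (by positivity), Real.log_pow] at h7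
    push_cast at h7
    linarith
  have hbd : ∀ n, 0 ≤ ratio p q α n ∧
      ratio p q α n ≤ Real.log B / Real.log (Nat.factorial 52 : ℝ) := by
    refine ratio_bounded (fun n => Real.log (d n : ℝ)) _ _ _ hl ?_ hr ?_ ?_ ?_
    · exact Real.log_natCast_nonneg B
    · simp [h0]
    · intro n
      exact Real.log_natCast_nonneg _
    · intro n
      exact hlog n B hBpos (hB n)
  refine ⟨K, inferInstance, inferInstance, p, q, α, hcop, by omega, ⟨_, hbd⟩, ?_⟩
  refine limit_gap (fun n => Real.log (d n : ℝ)) _ _ (Real.log ((13 * 2 ^ 13 : ℕ) : ℝ))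
    (Real.log ((2 ^ 24 : ℕ) : ℝ)) hl ?_ hr _ hbd ?_ ?_
  · refine Real.log_lt_log (by norm_num) ?_
    exact_mod_cast (by norm_num : 13 * 2 ^ 13 < 2 ^ 24)
  · intro n hn
    exact hlog n _ (by norm_num) (h1 n hn)
  · intro n hn hn1
    exact hlog2 n _ (by norm_num) (h2 n hn hn1)

end Pool.Agent.Arb
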